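import Pool.Agent.N566.CX.Tokc
import Pool.Agent.N901.CX.Ccre
import Pool.Agent.N278.CX.Gfx

/-!
# The clasp with expansions: the parts together
-/

set_option autoImplicit false

namespace Pool.Agent.N566.CX

open Pool.Agent.N561 Pool.Agent.N561.AX

theorem x_ccre : S_CCRE := Pool.Agent.N901.CX.ccre f_csg

theorem x_gfx : S_GFX := Pool.Agent.N278.CX.gfx

/-- the leaf of weight `-2`, with expansions -/
theorem x_lpx (g : ℝ) (hg : 0 < g) :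
    ∃ r₂ c₁ C₁ : ℝ, 0 < r₂ ∧ 0 < c₁ ∧ 0 < C₁ ∧ LPX (-2) (zc 0) g sg r₂ c₁ C₁ :=
  lpx_clasp x_ccre x_gfx g hg

/-- the type `(1, -2)` -/
theorem x_tokx {Rt : ℕ → ℤ → Prop} (hr : ¬ Rt 1 (-2)) : TOKX Rt 1 (-2) :=
  tokx_clasp x_ccre x_gfx hr

end Pool.Agent.N566.CX
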