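import Pool.Agent.N566.CX.Stm
import Pool.Agent.N720.VS.CNear
import Pool.Agent.W719.AX.FinA

/-!
# The clasp with expansions: the amplitude
-/

set_option autoImplicit false

namespace Pool.Agent.N566.CX

open Finset Filter Topology Metric
open Pool.Agent.W711.HT Pool.Agent.N561
open Pool.Agent.N839.VS (CR OR OR_sub_CR isOpen_OR isCompact_CR isOpen_DA)
open Pool.Agent.N720.VS (PQ mem_DA mem_strip Dat qc)
open Pool.Agent.N207.VS (Gf W rr ss F1 tp DA_mem half_mem LS_ssF ssF_LL ss_F1 rr_diff ss_diff V)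
open Pool.Agent.W719.AX (UX S_UXAN)
open scoped Real

/-- the interpolation -/
noncomputable def T0 : Dat :=
  ⟨rr, ss, fun _ hN => rr_diff hN, fun _ hN => ss_diff hN,
    fun _ d hN ψ hp => Pool.Agent.N207.VS.rr_exp hN ψ d hp,
    fun _ _ h1 h2 => Pool.Agent.N207.VS.ss_exp h1 h2,
    fun K hKD hK => Pool.Agent.N207.VS.rr_tend K hKD hK,
    fun K hKV hK => Pool.Agent.N207.VS.ss_tend K hKV hK⟩

/-- the expansion of `N (Gf - LL)` -/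
lemma gux (hG : S_GFX) (s : ℝ) : ∃ B : ℕ → ℂ → ℂ, ∀ K ⊆ W, IsCompact K →
    UX (fun N w => N * (Gf (1 / N) (w + ((s * (1 / N) : ℝ) : ℂ)) - LL w)) B K := by
  obtain ⟨A, h0, -, h2⟩ := hG s
  refine ⟨fun k w => A (k + 1) w, fun K hK hKc n => ?_⟩
  obtain ⟨C, a₀, ha₀, h⟩ := h2 K hK hKc (n + 1)
  refine ⟨C, ?_⟩
  have h3 : ∀ᶠ N : ℕ in atTop, (1 : ℝ) / N < a₀ :=
    (tendsto_one_div_atTop_nhds_zero_nat (𝕜 := ℝ)).eventually_lt_const ha₀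
  filter_upwards [h3, eventually_ge_atTop 1] with N h4 h5 w hw
  have hN : (0 : ℝ) < N := by exact_mod_cast h5
  have hNc : (N : ℂ) ≠ 0 := by exact_mod_cast hN.ne'
  have h6 := h (1 / N) (by positivity) h4.le w hw
  have e1 : (N : ℂ) * (Gf (1 / N) (w + ((s * (1 / N) : ℝ) : ℂ)) - LL w) -
      ∑ k ∈ range n, A (k + 1) w / (N : ℂ) ^ k = N * (Gf (1 / N) (w + ((s * (1 / N) : ℝ) : ℂ)) -
        ∑ k ∈ range (n + 1), A k w * (((1 / N : ℝ) : ℂ)) ^ k) := by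
    rw [Finset.sum_range_succ', pow_zero, mul_one, h0 w (hK hw)]
    have e2 : ∑ k ∈ range n, A (k + 1) w / (N : ℂ) ^ k =
        N * ∑ k ∈ range n, A (k + 1) w * (((1 / N : ℝ) : ℂ)) ^ (k + 1) := by
      rw [Finset.mul_sum]
      refine Finset.sum_congr rfl fun k _ => ?_
      push_cast
      rw [one_div, inv_pow, pow_succ]
      field_simp
    rw [e2]
    ring
  rw [e1, norm_mul, Complex.norm_natCast]
  calc (N : ℝ) * _ ≤ N * (C * (1 / N) ^ (n + 1)) := by gcongr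
    _ = C / (N : ℝ) ^ n := by
      rw [one_div, inv_pow, pow_succ]
      field_simp

/-- the exponent of the amplitude, without the linear part -/
noncomputable def hex (N : ℕ) (x : ℂ × ℂ) : ℂ :=
  N * (rr N (x.2, x.1) - RR x.2 x.1) -
    3 * (N * (ss N x.2 - LS (π * x.2) / π) - (Real.log N : ℂ) / 2) + π * Complex.I / 2 * x.2

/-- the amplitude -/
noncomputable def Hn (N : ℕ) (x : ℂ × ℂ) : ℂ := Complex.exp (hex N x)

/-- the set of the parameters -/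
def DD (ε a b h : ℝ) : Set (ℂ × ℂ) := closedBall 0 ε ×ˢ CR a b h

lemma ball_PQ {ε b : ℝ} (hb : 2 * π * b + ε < π) {ψ : ℂ} (hψ : ψ ∈ closedBall (0 : ℂ) ε) :
    ψ ∈ PQ b := by
  have h1 : |ψ.re| ≤ ε := (Complex.abs_re_le_norm ψ).trans (mem_closedBall_zero_iff.1 hψ)
  show 2 * π * b + |ψ.re| < π
  linarith

lemma log_half (N : ℕ) (hN : 1 ≤ N) :
    Complex.exp (-(3 * ((Real.log N : ℂ) / 2))) = (((Real.sqrt N) ^ 3 : ℝ) : ℂ)⁻¹ := by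
  have hN' : (0 : ℝ) < N := by exact_mod_cast hN
  rw [Complex.exp_neg]
  congr 1
  have e1 : (3 : ℂ) * ((Real.log N : ℂ) / 2) = ((3 * (Real.log N / 2) : ℝ) : ℂ) := by
    push_cast; ring
  rw [e1, ← Complex.ofReal_exp]
  congr 1
  have e2 : Real.sqrt N = Real.exp (Real.log N / 2) := by
    rw [Real.sqrt_eq_rpow, Real.rpow_def_of_pos hN']
    congr 1
    ring
  rw [e2, ← Real.exp_nat_mul]
  push_cast
  rfl

/-- the terms of the sum -/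
lemma exp_qc {N : ℕ} (hN : 1 ≤ N) (ψ δ : ℂ) : Complex.exp (N * qc T0 ψ N δ) =
    (((Real.sqrt N) ^ 3 : ℝ) : ℂ)⁻¹ * Complex.exp (N * QC ψ δ) * Hn N (ψ, δ) := by
  have hN' : (0 : ℝ) < N := by exact_mod_cast hN
  have hNc : (N : ℂ) ≠ 0 := by exact_mod_cast hN'.ne'
  rw [← log_half N hN, Hn, ← Complex.exp_add, ← Complex.exp_add]
  congr 1
  unfold qc QC hex T0
  field_simp
  ring

/-- the exponent has an expansion -/
lemma hux0 (hG : S_GFX) : ∃ B : ℕ → ℂ × ℂ → ℂ, ∀ ε a b h : ℝ, 0 < a → 2 * π * b + ε < π →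
    0 ≤ ε → UX hex B (DD ε a b h) := by
  have hπ := Real.pi_pos
  have hπc : (π : ℂ) ≠ 0 := by exact_mod_cast hπ.ne'
  obtain ⟨B0, h0⟩ := gux hG 0
  obtain ⟨B1, h1⟩ := gux hG (-(π / 2))
  refine ⟨fun k x => ((1 / π * B0 k (π * x.2 + x.1 / 2) + 1 / π * B0 k (π * x.2 - x.1 / 2)) +
    3 / π * B1 k (π / 2 - π * x.2)) + (if k = 0 then π * Complex.I / 2 * x.2 else 0), ?_⟩
  intro ε a b h ha hb hε
  have hb2 : b < 1 / 2 := by
    by_contra hcon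
    rw [not_lt] at hcon
    nlinarith
  have hK : IsCompact (DD ε a b h) := (isCompact_closedBall _ _).prod (isCompact_CR a b h)
  have hda : ∀ x ∈ DD ε a b h, ((x.2, x.1) : ℂ × ℂ) ∈ DA := fun x hx =>
    mem_DA ha hx.2 (ball_PQ hb hx.1)
  have hst : ∀ x ∈ DD ε a b h, x.2 ∈ V := fun x hx => mem_strip ha hb2 hx.2
  have k1 := h0 ((fun x : ℂ × ℂ => (π : ℂ) * x.2 + x.1 / 2) '' DD ε a b h) (by
    rintro _ ⟨x, hx, rfl⟩
    exact (DA_mem (hda x hx)).1) (hK.image (by fun_prop))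
  have k2 := h0 ((fun x : ℂ × ℂ => (π : ℂ) * x.2 - x.1 / 2) '' DD ε a b h) (by
    rintro _ ⟨x, hx, rfl⟩
    exact (DA_mem (hda x hx)).2) (hK.image (by fun_prop))
  have k3 := h1 ((fun x : ℂ × ℂ => (π / 2 : ℂ) - π * x.2) '' DD ε a b h) (by
    rintro _ ⟨x, hx, rfl⟩
    exact half_mem (hst x hx)) (hK.image (by fun_prop))
  have u1 := Pool.Agent.W21.AX.ux_comp k1 (fun x : ℂ × ℂ => (π : ℂ) * x.2 + x.1 / 2)
    (DD ε a b h) (fun x hx => ⟨x, hx, rfl⟩)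
  have u2 := Pool.Agent.W21.AX.ux_comp k2 (fun x : ℂ × ℂ => (π : ℂ) * x.2 - x.1 / 2)
    (DD ε a b h) (fun x hx => ⟨x, hx, rfl⟩)
  have u3 := Pool.Agent.W21.AX.ux_comp k3 (fun x : ℂ × ℂ => (π / 2 : ℂ) - π * x.2)
    (DD ε a b h) (fun x hx => ⟨x, hx, rfl⟩)
  have v1 := Pool.Agent.W67.AX.uxcmul (fun _ : ℂ × ℂ => (1 / π : ℂ)) ‖(1 / π : ℂ)‖
    (fun _ _ => le_rfl) u1
  have v2 := Pool.Agent.W67.AX.uxcmul (fun _ : ℂ × ℂ => (1 / π : ℂ)) ‖(1 / π : ℂ)‖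
    (fun _ _ => le_rfl) u2
  have v3 := Pool.Agent.W67.AX.uxcmul (fun _ : ℂ × ℂ => (3 / π : ℂ)) ‖(3 / π : ℂ)‖
    (fun _ _ => le_rfl) u3
  obtain ⟨M, hM⟩ := hK.exists_bound_of_continuousOn
    (f := fun x : ℂ × ℂ => (π : ℂ) * Complex.I / 2 * x.2) (by fun_prop)
  have v4 := Pool.Agent.W67.AX.uxconst (fun x : ℂ × ℂ => (π : ℂ) * Complex.I / 2 * x.2) M hM
  have w := Pool.Agent.W67.AX.uxadd (Pool.Agent.W67.AX.uxadd (Pool.Agent.W67.AX.uxadd v1 v2) v3) v4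
  refine Pool.Agent.W67.AX.congr' ?_ w
  -- `δ.re < 1 - 1 / N / 2` for large `N`
  have hl : ∀ᶠ N : ℕ in atTop, (1 : ℝ) / N < 1 :=
    (tendsto_one_div_atTop_nhds_zero_nat (𝕜 := ℝ)).eventually_lt_const one_pos
  filter_upwards [hl, eventually_ge_atTop 2] with N hN1 hN2 x hx
  have hN' : (0 : ℝ) < N := by
    have : 0 < N := by omega
    exact_mod_cast this
  have hNc : (N : ℂ) ≠ 0 := by exact_mod_cast hN'.ne'
  have hre : x.2.re < 1 - 1 / N / 2 := by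
    have := hx.2.2.1
    linarith
  unfold hex
  rw [ss_F1 hN2 hre, LS_ssF, ssF_LL (hst x hx)]
  unfold F1 rr RR
  have e1 : tp N - π * x.2 = (π / 2 : ℂ) - π * x.2 + ((-(π / 2) * (1 / N) : ℝ) : ℂ) := by
    unfold tp
    push_cast
    ring
  rw [e1]
  have e2 : ((0 * (1 / (N : ℝ)) : ℝ) : ℂ) = 0 := by simp
  simp only [e2, add_zero]
  push_cast
  field_simp
  ring

/-- the amplitude is holomorphic -/
lemma Hn_eq {N : ℕ} (hN : 1 ≤ N) (ψ δ : ℂ) : Hn N (ψ, δ) = (((Real.sqrt N) ^ 3 : ℝ) : ℂ) *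
    Complex.exp (-(N * QC ψ δ)) * Complex.exp (N * qc T0 ψ N δ) := by
  have hN' : (0 : ℝ) < N := by exact_mod_cast hN
  have h1 : (((Real.sqrt N) ^ 3 : ℝ) : ℂ) ≠ 0 := by
    have : 0 < Real.sqrt N := Real.sqrt_pos.2 hN'
    exact_mod_cast (pow_pos this 3).ne'
  rw [exp_qc hN, Complex.exp_neg]
  field_simp

lemma Hn_diff {N : ℕ} (hN : 1 ≤ N) {a b h : ℝ} (ha : 0 < a) {ψ : ℂ} (hp : ψ ∈ PQ b) :
    DifferentiableOn ℂ (fun δ => Hn N (ψ, δ)) (OR a b h) := by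
  have h1 := Pool.Agent.N720.VS.QC_diff T0 (h := h) ha hp
  have h2 := (Pool.Agent.N720.VS.qc_diff T0 (h := h) ha hp hN).mono (OR_sub_CR a b h)
  have e : (fun δ => Hn N (ψ, δ)) = fun δ => (((Real.sqrt N) ^ 3 : ℝ) : ℂ) *
    Complex.exp (-(N * QC ψ δ)) * Complex.exp (N * qc T0 ψ N δ) := funext fun δ => Hn_eq hN ψ δ
  rw [e]
  exact ((h1.const_mul (N : ℂ)).neg.cexp.const_mul _).mul (h2.const_mul (N : ℂ)).cexp

/-- the amplitude has an expansion with holomorphic coefficients -/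
theorem Hux (hG : S_GFX) {ε a b h : ℝ} (ha : 0 < a) (hb : 2 * π * b + ε < π) (hε : 0 ≤ ε) :
    ∃ (H : ℕ → ℂ × ℂ → ℂ) (c₀ : ℝ), 0 < c₀ ∧ UX Hn H (DD ε a b h) ∧
      (∀ k, ∀ ψ ∈ closedBall (0 : ℂ) ε, DifferentiableOn ℂ (fun δ => H k (ψ, δ)) (OR a b h)) ∧
      ∀ x ∈ DD ε a b h, c₀ ≤ ‖H 0 x‖ := by
  obtain ⟨B, hB⟩ := hux0 hG
  have h1 := hB ε a b h ha hb hε
  obtain ⟨H, h2, h3⟩ := Pool.Agent.W719.AX.f_EXP _ _ _ _ h1
  obtain ⟨M, hM⟩ := Pool.Agent.W303.AX.uxbd _ _ _ _ h1 0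
  refine ⟨H, Real.exp (-M), Real.exp_pos _, h2, fun k ψ hψ => ?_, fun x hx => ?_⟩
  · have h4 := Pool.Agent.W21.AX.ux_comp h2 (fun δ : ℂ => (ψ, δ)) (OR a b h)
      (fun δ hδ => ⟨hψ, OR_sub_CR a b h hδ⟩)
    exact Pool.Agent.W303.AX.uxan _ _ _ (isOpen_OR a b h)
      (Filter.eventually_atTop.2 ⟨1, fun N hN => Hn_diff hN ha (ball_PQ hb hψ)⟩) h4 k
  · rw [h3, Complex.norm_exp]
    refine Real.exp_le_exp.2 ?_
    have := (abs_le.1 ((Complex.abs_re_le_norm _).trans (hM x hx))).1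
    exact this

end Pool.Agent.N566.CX
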