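import Pool.Agent.N566.CX.Win

/-!
# The clasp with expansions: the window of the sum
-/

set_option autoImplicit false

namespace Pool.Agent.N566.CX

open Finset Filter Topology Metric MeasureTheory
open Pool.Agent.W711.HT Pool.Agent.N561
open Pool.Agent.N839.VS (CR OR OR_sub_CR isOpen_OR isCompact_CR isOpen_DA tend_floor tend_ceil)
open Pool.Agent.N720.VS (PQ mem_DA mem_strip Dat qc PQ0 slit0 QC_cont FC_cont dc_cont crit_ev
  slit_ev isOpen_PQ QC_diff qc_diff QC_unif term_eq tm)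
open Pool.Agent.W719.AX (UX)
open scoped Real

/-- the second derivative at the critical point -/
lemma dd_tend {a' b' h : ℝ} (ha' : 0 < a') (hb' : b' < 1 / 2) (hd : dc 0 ∈ OR a' b' h) :
    Tendsto (fun p => deriv (deriv (QC p)) (dc p)) (𝓝 0) (𝓝 (deriv (deriv (QC 0)) (dc 0))) := by
  have hp₀ := PQ0 hb'
  have h1 : ∀ᶠ p in 𝓝 (0 : ℂ), DifferentiableOn ℂ (QC p) (OR a' b' h) := by
    filter_upwards [(isOpen_PQ _).mem_nhds hp₀] with p hp
    exact QC_diff T0 ha' hp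
  have hU := isOpen_OR a' b' h
  have hlim := QC_unif T0 (h := h) ha' hp₀
  have hd1 : TendstoLocallyUniformlyOn (deriv ∘ QC) (deriv (QC 0)) (𝓝 0) (OR a' b' h) :=
    hlim.tendstoLocallyUniformlyOn.deriv h1 hU
  have hQ1 : ∀ᶠ p in 𝓝 (0 : ℂ), DifferentiableOn ℂ ((deriv ∘ QC) p) (OR a' b' h) := by
    filter_upwards [h1] with p hp using hp.deriv hU
  have hd2 : TendstoLocallyUniformlyOn (deriv ∘ (deriv ∘ QC)) (deriv (deriv (QC 0))) (𝓝 0)
      (OR a' b' h) := hd1.deriv hQ1 hU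
  have hc : ContinuousWithinAt (deriv (deriv (QC 0))) (OR a' b' h) (dc 0) :=
    ((((QC_diff T0 ha' hp₀).deriv hU).deriv hU).continuousOn) _ hd
  have cd : ContinuousAt dc 0 := dc_cont slit0
  have := hd2.tendsto_comp hc hd (tendsto_nhdsWithin_iff.2 ⟨cd, cd.eventually (hU.mem_nhds hd)⟩)
  exact this

/-- `q_p(u)` -/
noncomputable def qf (p u : ℂ) : ℂ := QC p (dc p + u) - FC p

lemma qf_deriv (p : ℂ) : deriv (qf p) = fun u => deriv (QC p) (dc p + u) := by
  funext u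
  unfold qf
  rw [deriv_sub_const, deriv_comp_const_add]

lemma qf_deriv2 (p u : ℂ) : deriv (deriv (qf p)) u = deriv (deriv (QC p)) (dc p + u) := by
  rw [qf_deriv, deriv_comp_const_add]

/-- the boundedness of the amplitude -/
lemma Hbd (hG : S_GFX) {ε a b h : ℝ} (ha : 0 < a) (hb : 2 * π * b + ε < π) (hε : 0 ≤ ε) :
    ∃ C : ℝ, 0 < C ∧ ∀ᶠ N : ℕ in atTop, ∀ x ∈ DD ε a b h, ‖Hn N x‖ ≤ C := by
  obtain ⟨H, c₀, -, h1, -, -⟩ := Hux hG ha hb hε (h := h)
  obtain ⟨C, hC⟩ := h1 0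
  refine ⟨max C 1, by positivity, ?_⟩
  filter_upwards [hC] with N hN x hx
  have := hN x hx
  simp only [Finset.range_zero, Finset.sum_empty, sub_zero, pow_zero, div_one] at this
  exact this.trans (le_max_left _ _)

/-- bound of the terms -/
lemma F_bd {C : ℝ} {N : ℕ} (hN : 1 ≤ N) {p w : ℂ} (h : ‖Hn N (p, w)‖ ≤ C) :
    ‖Complex.exp (N * qc T0 p N w)‖ ≤ C * Real.exp (N * (QC p w).re) := by
  have hN' : (1 : ℝ) ≤ N := by exact_mod_cast hN
  rw [exp_qc hN, norm_mul, norm_mul, norm_inv, Complex.norm_real, Complex.norm_exp]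
  have e1 : ((N : ℂ) * QC p w).re = N * (QC p w).re := by simp
  rw [e1]
  have h1 : 1 ≤ ‖(Real.sqrt N) ^ 3‖ := by
    have h2 : 1 ≤ Real.sqrt N := by
      rw [Real.one_le_sqrt]; exact hN'
    rw [Real.norm_of_nonneg (by positivity)]
    exact one_le_pow₀ h2
  have h3 : (‖(Real.sqrt N) ^ 3‖)⁻¹ ≤ 1 := inv_le_one_of_one_le₀ h1
  have h4 : 0 ≤ (‖(Real.sqrt N) ^ 3‖)⁻¹ := by positivity
  calc (‖(Real.sqrt N) ^ 3‖)⁻¹ * Real.exp (N * (QC p w).re) * ‖Hn N (p, w)‖ ≤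
        1 * Real.exp (N * (QC p w).re) * C := by gcongr
    _ = _ := by ring

/-- one `N` and one `p` -/
lemma one (hS : S_SIW) {a b δ a' b' h κ κ₂ η C : ℝ} {p : ℂ} {N : ℕ}
    (hδ : 0 < δ) (ha' : 0 < a') (ha'1 : a' < a - δ) (hb'1 : b + δ < b') (hb2 : b' < 1 / 2)
    (hab : a < b)
    (hI : Ineq a b δ a' b' h κ p) (hη : 0 < η) (hη1 : a + δ ≤ (dc p).re - η)
    (hη2 : (dc p).re + η ≤ b - δ)
    (h2 : ∀ x : ℝ, a - δ ≤ x → x ≤ b + δ → η ≤ |x - (dc p).re| →
      (QC p (x + (dc p).im * Complex.I)).re ≤ (FC p).re - κ₂)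
    (h3 : ∀ x : ℝ, a - δ ≤ x → x ≤ b + δ →
      (QC p (x + (dc p).im * Complex.I)).re ≤ (FC p).re)
    (hκ2 : κ ≤ κ₂) (hκ3 : κ ≤ -(2 * π * (dc p).im)) (hC : 0 < C)
    (hH : ∀ w ∈ CR a' b' h, ‖Hn N (p, w)‖ ≤ C) (hN : 1 ≤ N)
    (hN1 : 2 / (N : ℝ) ≤ δ) (hN2 : Real.exp (-(2 * π * N * (-(dc p).im))) ≤ 1 / 2) :
    ‖(N : ℂ) * Complex.exp (-(N * FC p)) * ∑ d ∈ Ico (⌈a * N⌉₊) (⌊b * N⌋₊), tm N d p -
      (Real.sqrt N : ℂ) * ∫ x in (-η)..η, Complex.exp (N * qf p x) * Hn N (p, dc p + x)‖ ≤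
      (C * (8 + 4 * h)) * ((N : ℝ) ^ 2 * Real.exp (-(κ * N))) := by
  have hπ := Real.pi_pos
  have hN' : (0 : ℝ) < N := by exact_mod_cast hN
  have hNc : (N : ℂ) ≠ 0 := by exact_mod_cast hN'.ne'
  obtain ⟨L, hL⟩ : ∃ L : ℝ, L = (FC p).re := ⟨_, rfl⟩
  obtain ⟨hp, hpdef⟩ : ∃ hp : ℝ, hp = -(dc p).im := ⟨_, rfl⟩
  have hp0 : 0 < hp := by rw [hpdef]; linarith [hI.im]
  have hph : hp < h := by
    have := hI.im2
    rw [abs_of_neg hI.im] at this
    rw [hpdef]; exact this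
  have hb'h := hb2
  have ha : 0 < a := by linarith
  have hb0 : 0 < b := by linarith
  obtain ⟨F, hF⟩ : ∃ F : ℂ → ℂ, F = fun w => Complex.exp (N * qc T0 p N w) := ⟨_, rfl⟩
  have hFd : DifferentiableOn ℂ F (OR a' b' h) := by
    rw [hF]
    exact (((qc_diff T0 ha' hI.pq hN).mono (OR_sub_CR a' b' h)).const_mul (N : ℂ)).cexp
  have hFb : ∀ w ∈ CR a' b' h, ‖F w‖ ≤ C * Real.exp (N * (QC p w).re) := by
    intro w hw
    rw [hF]
    exact F_bd hN (hH w hw)
  -- the end points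
  obtain ⟨A, hA⟩ : ∃ A : ℕ, A = ⌈a * N⌉₊ := ⟨_, rfl⟩
  obtain ⟨B, hB⟩ : ∃ B : ℕ, B = ⌊b * N⌋₊ := ⟨_, rfl⟩
  obtain ⟨α, hα⟩ : ∃ α : ℝ, α = ((A : ℝ) - 1 / 2) / N := ⟨_, rfl⟩
  obtain ⟨β, hβ⟩ : ∃ β : ℝ, β = ((B : ℝ) - 1 / 2) / N := ⟨_, rfl⟩
  have h1N : 2 ≤ δ * N := by
    rw [div_le_iff₀ hN'] at hN1
    exact hN1
  have hα1 : a - δ ≤ α := by
    rw [hα, le_div_iff₀ hN']
    have := Nat.le_ceil (a * N)
    rw [← hA] at this
    nlinarith
  have hα2 : α ≤ a + δ := by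
    rw [hα, div_le_iff₀ hN']
    have := Nat.ceil_lt_add_one (a := a * N) (by positivity)
    rw [← hA] at this
    nlinarith
  have hβ1 : b - δ ≤ β := by
    rw [hβ, le_div_iff₀ hN']
    have := Nat.lt_floor_add_one (b * N)
    rw [← hB] at this
    nlinarith
  have hβ2 : β ≤ b + δ := by
    rw [hβ, div_le_iff₀ hN']
    have := Nat.floor_le (a := b * N) (by positivity)
    rw [← hB] at this
    nlinarith
  have hαβ : α ≤ β := by linarith
  have hAB : A ≤ B := by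
    rw [hα, hβ, div_le_div_iff_of_pos_right hN'] at hαβ
    have : (A : ℝ) ≤ B := by linarith
    exact_mod_cast this
  have hmem : ∀ x y : ℝ, α ≤ x → x ≤ β → |y| ≤ hp → (x : ℂ) + y * Complex.I ∈ OR a' b' h := by
    intro x y hx1 hx2 hy
    refine ⟨?_, ?_, ?_⟩
    · simp; linarith
    · simp; linarith
    · simp; linarith
  obtain ⟨T, hT⟩ : ∃ T : ℝ, T = C * Real.exp (N * (L - κ)) := ⟨_, rfl⟩
  have hT0 : 0 ≤ T := by rw [hT]; positivity
  -- the sum and the integral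
  have key := hS F (OR a' b' h) N A B hp T (isOpen_OR _ _ _) hFd (by omega) hAB hp0
    (by rw [hpdef]; exact hN2) hT0 (by rw [← hα, ← hβ]; exact hmem) (by
      rw [← hα, ← hβ]
      intro y hy
      have hside : ∀ x : ℝ, (a - δ ≤ x ∧ x ≤ a + δ ∨ b - δ ≤ x ∧ x ≤ b + δ) → α ≤ x → x ≤ β →
          ‖F ((x : ℂ) + y * Complex.I)‖ * Real.exp (-(2 * π * N * max y 0)) ≤ T := by
        intro x hx hx1 hx2
        have g1 := hFb _ (OR_sub_CR _ _ _ (hmem x y hx1 hx2 hy))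
        have g2 := hI.side x hx y (by rw [← hpdef]; exact hy)
        calc _ ≤ C * Real.exp (N * (QC p (x + y * Complex.I)).re) *
              Real.exp (-(2 * π * N * max y 0)) := by gcongr
          _ = C * Real.exp (N * ((QC p (x + y * Complex.I)).re - 2 * π * max y 0)) := by
            rw [mul_assoc, ← Real.exp_add]
            congr 2
            ring
          _ ≤ T := by
            rw [hT]
            exact mul_le_mul_of_nonneg_left (Real.exp_le_exp.2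
              (mul_le_mul_of_nonneg_left (by rw [hL]; exact g2) hN'.le)) hC.le
      exact ⟨hside α (Or.inl ⟨hα1, hα2⟩) le_rfl hαβ, hside β (Or.inr ⟨hβ1, hβ2⟩) hαβ le_rfl⟩) (by
      rw [← hα, ← hβ]
      intro x hx1 hx2
      have hhp : |hp| ≤ hp := by rw [abs_of_pos hp0]
      have hhp' : |-hp| ≤ hp := by rw [abs_neg, abs_of_pos hp0]
      constructor
      · have g1 := hFb _ (OR_sub_CR _ _ _ (hmem x hp hx1 hx2 hhp))
        have g2 := hI.top x (by linarith) (by linarith)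
        have e1 : (x : ℂ) - (dc p).im * Complex.I = x + hp * Complex.I := by
          rw [hpdef]; push_cast; ring
        rw [e1] at g2
        calc _ ≤ C * Real.exp (N * (QC p (x + hp * Complex.I)).re) *
              Real.exp (-(2 * π * N * hp)) := by gcongr
          _ = C * Real.exp (N * ((QC p (x + hp * Complex.I)).re - 2 * π * hp)) := by
            rw [mul_assoc, ← Real.exp_add]
            congr 2
            ring
          _ ≤ T := by
            rw [hT]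
            exact mul_le_mul_of_nonneg_left (Real.exp_le_exp.2
              (mul_le_mul_of_nonneg_left (by
                have : 2 * π * hp = -(2 * π * (dc p).im) := by rw [hpdef]; ring
                rw [hL]; linarith) hN'.le)) hC.le
      · have e0 : (x : ℂ) - hp * Complex.I = x + ((-hp : ℝ) : ℂ) * Complex.I := by
          push_cast; ring
        have g1 := hFb _ (OR_sub_CR _ _ _ (hmem x (-hp) hx1 hx2 hhp'))
        have g2 := h3 x (by linarith) (by linarith)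
        rw [e0]
        have e1 : ((-hp : ℝ) : ℂ) = ((dc p).im : ℂ) := by rw [hpdef, neg_neg]
        rw [e1] at g1 ⊢
        calc _ ≤ C * Real.exp (N * (QC p (x + (dc p).im * Complex.I)).re) *
              Real.exp (-(2 * π * N * hp)) := by gcongr
          _ = C * Real.exp (N * ((QC p (x + (dc p).im * Complex.I)).re - 2 * π * hp)) := by
            rw [mul_assoc, ← Real.exp_add]
            congr 2
            ring
          _ ≤ T := by
            rw [hT]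
            exact mul_le_mul_of_nonneg_left (Real.exp_le_exp.2
              (mul_le_mul_of_nonneg_left (by
                have : 2 * π * hp = -(2 * π * (dc p).im) := by rw [hpdef]; ring
                rw [hL]; linarith) hN'.le)) hC.le)
  rw [← hα, ← hβ] at key
  -- the terms
  have hsum : ∑ d ∈ Ico A B, F ((d : ℂ) / N) = ∑ d ∈ Ico A B, tm N d p := by
    refine Finset.sum_congr rfl fun d hd => ?_
    rw [Finset.mem_Ico, hA, hB] at hd
    have g1 : a * N ≤ d := Nat.le_of_ceil_le hd.1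
    have g2 : (d : ℝ) < b * N := Nat.lt_of_lt_floor hd.2
    rw [hF]
    refine (term_eq T0 ha' hI.pq hN (h := h) ?_).symm
    rw [show ((d : ℂ) / N) = (((d : ℝ) / N : ℝ) : ℂ) by push_cast; rfl]
    refine ⟨?_, ?_, ?_⟩
    · rw [Complex.ofReal_re, le_div_iff₀ hN']
      nlinarith
    · rw [Complex.ofReal_re, div_le_iff₀ hN']
      nlinarith
    · rw [Complex.ofReal_im, abs_zero]; linarith
  rw [hsum] at key
  -- the integral
  have hcont : ∀ x : ℝ, α ≤ x → x ≤ β → ContinuousAt (fun x : ℝ => F (x - hp * Complex.I)) x := by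
    intro x hx1 hx2
    have g1 := hmem x (-hp) hx1 hx2 (by rw [abs_neg, abs_of_pos hp0])
    have e1 : (x : ℂ) - hp * Complex.I = x + ((-hp : ℝ) : ℂ) * Complex.I := by
      push_cast; ring
    have g2 : ContinuousAt F ((x : ℂ) - hp * Complex.I) := by
      rw [e1]
      exact hFd.continuousOn.continuousAt ((isOpen_OR _ _ _).mem_nhds g1)
    exact ContinuousAt.comp (g := F) (f := fun x : ℝ => (x : ℂ) - hp * Complex.I) g2 (by fun_prop)
  have hint : ∀ s t : ℝ, α ≤ s → s ≤ t → t ≤ β →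
      IntervalIntegrable (fun x : ℝ => F (x - hp * Complex.I)) volume s t := by
    intro s t h1 h2 h3
    apply ContinuousOn.intervalIntegrable
    intro x hx
    rw [Set.uIcc_of_le h2] at hx
    exact (hcont x (h1.trans hx.1) (hx.2.trans h3)).continuousWithinAt
  obtain ⟨z, hz⟩ : ∃ z : ℝ, z = (dc p).re := ⟨_, rfl⟩
  rw [← hz] at hη1 hη2
  have hsplit : (∫ x in α..β, F (x - hp * Complex.I)) =
      (∫ x in α..(z - η), F (x - hp * Complex.I)) + (∫ x in (z - η)..(z + η), F (x - hp * Complex.I)) +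
        ∫ x in (z + η)..β, F (x - hp * Complex.I) := by
    rw [intervalIntegral.integral_add_adjacent_intervals
      (hint _ _ le_rfl (by linarith) (by linarith)) (hint _ _ (by linarith) (by linarith)
        (by linarith)), intervalIntegral.integral_add_adjacent_intervals
      (hint _ _ le_rfl (by linarith) (by linarith)) (hint _ _ (by linarith) (by linarith) le_rfl)]
  have hlin : ∀ x : ℝ, α ≤ x → x ≤ β → η ≤ |x - z| → ‖F (x - hp * Complex.I)‖ ≤ T := by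
    intro x hx1 hx2 hx3
    have e0 : (x : ℂ) - hp * Complex.I = x + ((dc p).im : ℂ) * Complex.I := by
      rw [hpdef]; push_cast; ring
    have g1 := hFb _ (OR_sub_CR _ _ _ (hmem x (-hp) hx1 hx2 (by rw [abs_neg, abs_of_pos hp0])))
    have e1 : ((-hp : ℝ) : ℂ) = ((dc p).im : ℂ) := by rw [hpdef, neg_neg]
    rw [e1] at g1
    rw [e0]
    refine g1.trans ?_
    rw [hT]
    gcongr
    have := h2 x (by linarith) (by linarith) (by rw [← hz]; exact hx3)
    rw [hL]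
    linarith
  have hbd1 : ‖∫ x in α..(z - η), F (x - hp * Complex.I)‖ ≤ T * 1 := by
    refine (intervalIntegral.norm_integral_le_of_norm_le_const (C := T) ?_).trans ?_
    · intro x hx
      rw [Set.uIoc_of_le (by linarith)] at hx
      refine hlin x hx.1.le (by linarith [hx.2]) ?_
      rw [abs_sub_comm]
      exact (by linarith [hx.2] : η ≤ z - x).trans (le_abs_self _)
    · gcongr
      rw [abs_of_nonneg (by linarith)]
      linarith
  have hbd2 : ‖∫ x in (z + η)..β, F (x - hp * Complex.I)‖ ≤ T * 1 := by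
    refine (intervalIntegral.norm_integral_le_of_norm_le_const (C := T) ?_).trans ?_
    · intro x hx
      rw [Set.uIoc_of_le (by linarith)] at hx
      refine hlin x (by linarith [hx.1]) hx.2 ?_
      exact (by linarith [hx.1] : η ≤ x - z).trans (le_abs_self _)
    · gcongr
      rw [abs_of_nonneg (by linarith)]
      linarith
  have hmain : (∫ x in (z - η)..(z + η), F (x - hp * Complex.I)) =
      (((Real.sqrt N) ^ 3 : ℝ) : ℂ)⁻¹ * Complex.exp (N * FC p) *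
        ∫ x in (-η)..η, Complex.exp (N * qf p x) * Hn N (p, dc p + x) := by
    have e1 := intervalIntegral.integral_comp_add_left (a := -η) (b := η)
      (fun x : ℝ => F (x - hp * Complex.I)) z
    rw [← sub_eq_add_neg] at e1
    rw [← e1, ← intervalIntegral.integral_const_mul]
    refine intervalIntegral.integral_congr fun x _ => ?_
    have e2 : ((z + x : ℝ) : ℂ) - hp * Complex.I = dc p + x := by
      rw [hpdef, hz]
      conv_rhs => rw [← Complex.re_add_im (dc p)]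
      push_cast
      ring
    simp only [e2, hF]
    rw [exp_qc hN]
    have e3 : Complex.exp (N * QC p (dc p + x)) = Complex.exp (N * FC p) *
        Complex.exp (N * qf p x) := by
      rw [← Complex.exp_add]
      congr 1
      unfold qf
      ring
    rw [e3]
    ring
  -- assembly
  obtain ⟨J, hJ⟩ : ∃ J : ℂ, J = ∫ x in (-η)..η, Complex.exp (N * qf p x) * Hn N (p, dc p + x) :=
    ⟨_, rfl⟩
  have hs3 : (N : ℂ) * (N * ((((Real.sqrt N) ^ 3 : ℝ) : ℂ)⁻¹)) = (Real.sqrt N : ℂ) := by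
    have h1 : (0 : ℝ) < Real.sqrt N := Real.sqrt_pos.2 hN'
    have h2 : (Real.sqrt N) ^ 2 = N := Real.sq_sqrt hN'.le
    have h3 : (N : ℝ) * (N * ((Real.sqrt N) ^ 3)⁻¹) = Real.sqrt N := by
      have e : (N : ℝ) * (N * ((Real.sqrt N) ^ 3)⁻¹) =
          (Real.sqrt N) ^ 2 * ((Real.sqrt N) ^ 2 * ((Real.sqrt N) ^ 3)⁻¹) := by rw [h2]
      rw [e]
      field_simp
    exact_mod_cast h3
  rw [← hA, ← hB, ← hJ]
  have hfin : (N : ℂ) * Complex.exp (-(N * FC p)) * ∑ d ∈ Ico A B, tm N d p -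
      (Real.sqrt N : ℂ) * J = (N : ℂ) * Complex.exp (-(N * FC p)) *
        ((∑ d ∈ Ico A B, tm N d p - N * ∫ x in α..β, F (x - hp * Complex.I)) +
        N * ((∫ x in α..(z - η), F (x - hp * Complex.I)) +
          ∫ x in (z + η)..β, F (x - hp * Complex.I))) := by
    rw [hsplit, hmain, ← hJ, ← hs3]
    have e1 : Complex.exp (-(N * FC p)) * Complex.exp (N * FC p) = 1 := by
      rw [← Complex.exp_add, neg_add_cancel, Complex.exp_zero]
    linear_combination ((N : ℂ) * (N * ((((Real.sqrt N) ^ 3 : ℝ) : ℂ)⁻¹)) * J) * e1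
  rw [hfin, norm_mul, norm_mul, Complex.norm_natCast, Complex.norm_exp]
  have e4 : (-((N : ℂ) * FC p)).re = -(N * L) := by simp [hL]
  rw [e4]
  have hBA : (B : ℝ) - A ≤ N := by
    have : (B : ℝ) ≤ b * N := by rw [hB]; exact Nat.floor_le (by positivity)
    have h0 : (0 : ℝ) ≤ A := Nat.cast_nonneg A
    nlinarith
  have hnorm : ‖(∑ d ∈ Ico A B, tm N d p - N * ∫ x in α..β, F (x - hp * Complex.I)) +
      N * ((∫ x in α..(z - η), F (x - hp * Complex.I)) +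
        ∫ x in (z + η)..β, F (x - hp * Complex.I))‖ ≤ T * (N * (8 + 4 * h)) := by
    refine (norm_add_le _ _).trans ?_
    rw [norm_mul, Complex.norm_natCast]
    have g1 := norm_add_le (∫ x in α..(z - η), F (x - hp * Complex.I))
      (∫ x in (z + η)..β, F (x - hp * Complex.I))
    have g2 : (N : ℝ) * ‖(∫ x in α..(z - η), F (x - hp * Complex.I)) +
        ∫ x in (z + η)..β, F (x - hp * Complex.I)‖ ≤ N * (T * 1 + T * 1) := by
      gcongr
      linarith
    have g3 : T * (4 * ((B : ℝ) - A) + 4 * N * hp) ≤ T * (4 * N + 4 * N * h) := by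
      gcongr
    have g4 := mul_nonneg hT0 hN'.le
    nlinarith
  calc (N : ℝ) * Real.exp (-(N * L)) * _ ≤ N * Real.exp (-(N * L)) * (T * (N * (8 + 4 * h))) := by
        gcongr
    _ = (C * (8 + 4 * h)) * ((N : ℝ) ^ 2 * (Real.exp (-(N * L)) * Real.exp (N * (L - κ)))) := by
        rw [hT]; ring
    _ = _ := by
        rw [← Real.exp_add]
        congr 3
        ring_nf

lemma Ineq.mono {a b δ a' b' h κ κ' : ℝ} {p : ℂ} (h1 : Ineq a b δ a' b' h κ p) (h2 : κ' ≤ κ) :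
    Ineq a b δ a' b' h κ' p :=
  ⟨h1.pq, h1.im, h1.im2, h1.re1, h1.re2, h1.crit, h1.slit,
    fun x hx y hy => (h1.side x hx y hy).trans (by linarith),
    fun x hx1 hx2 => (h1.top x hx1 hx2).trans (by linarith)⟩

lemma exp_half {c : ℝ} (hc : 0 < c) : ∀ᶠ N : ℕ in atTop, Real.exp (-(2 * π * N * c)) ≤ 1 / 2 := by
  have hπ := Real.pi_pos
  have h1 : ∀ᶠ N : ℕ in atTop, 1 / (2 * π * c) ≤ (N : ℝ) :=
    tendsto_natCast_atTop_atTop.eventually_ge_atTop _
  filter_upwards [h1] with N h1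
  rw [div_le_iff₀ (by positivity)] at h1
  rw [Real.exp_neg, inv_le_comm₀ (Real.exp_pos _) (by norm_num)]
  have := Real.add_one_le_exp (2 * π * N * c)
  norm_num
  linarith

/-- **the window of the sum**, with expansion -/
theorem lapx (hG : S_GFX) (hS : S_SIW) (hQ : S_CQ) : ∃ a₀ b₀ : ℝ, 0 < a₀ ∧ b₀ < 1 / 2 ∧ a₀ < b₀ ∧
    ∀ a b δ : ℝ, 0 < δ → 0 < a - δ → a + δ ≤ a₀ → b₀ ≤ b - δ → b + δ < 1 / 2 →
    ∃ (a' b' h κ ε c₀ C : ℝ) (A : ℕ → ℂ → ℂ), 0 < a' ∧ a' < a - δ ∧ b + δ < b' ∧ b' < 1 / 2 ∧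
      0 < h ∧ 0 < κ ∧ 0 < ε ∧ 0 < c₀ ∧ (∀ p ∈ closedBall (0 : ℂ) ε, Ineq a b δ a' b' h κ p) ∧
      (∀ᶠ N : ℕ in atTop, ∀ x ∈ DD ε a' b' h, ‖Hn N x‖ ≤ C) ∧
      UX (fun N p => (N : ℂ) * Complex.exp (-(N * FC p)) *
        ∑ d ∈ Ico (⌈a * N⌉₊) (⌊b * N⌋₊), tm N d p) A (closedBall 0 ε) ∧
      ∀ p ∈ closedBall (0 : ℂ) ε, c₀ ≤ ‖A 0 p‖ := by
  have hπ := Real.pi_pos
  obtain ⟨a₀, b₀, ha₀, hb₀, hab₀, hin⟩ := ineq hQ
  have f5 : (deriv (deriv (QC 0)) (dc 0)).re < 0 := hQ.2.2.2.2.1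
  have f7 : ∀ x : ℝ, 0 ≤ x → x ≤ 1 / 2 → x ≠ (dc 0).re →
    (QC 0 (x + (dc 0).im * Complex.I)).re < (FC 0).re := hQ.2.2.2.2.2.2.1
  refine ⟨a₀, b₀, ha₀, hb₀, hab₀, fun a b δ hδ haδ haa hbb hb => ?_⟩
  obtain ⟨a', b', h, ha'0, ha'1, hb'1, hb'2, hh, ⟨κ₁, hκ₁, e1⟩, hη⟩ :=
    hin a b δ hδ haδ haa hbb hb
  obtain ⟨z₀, hz₀⟩ : ∃ z₀ : ℂ, z₀ = dc 0 := ⟨_, rfl⟩
  have hI0 := e1.self_of_nhds
  have hz₀m : dc 0 ∈ OR a' b' h := ⟨by linarith [hI0.re1], by linarith [hI0.re2], hI0.im2⟩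
  have hU := isOpen_OR a' b' h
  have cd : ContinuousAt dc 0 := dc_cont slit0
  obtain ⟨δ₂, hδ₂, hball⟩ := Metric.isOpen_iff.1 hU (dc 0) hz₀m
  obtain ⟨δ₁, hδ₁, hδ₁2⟩ : ∃ δ₁ : ℝ, 0 < δ₁ ∧ 2 * δ₁ ≤ δ₂ := ⟨δ₂ / 2, by positivity, by linarith⟩
  obtain ⟨m, hm, hm1, hm2⟩ : ∃ m : ℝ, 0 < m ∧ m ≤ (dc 0).re - (a + δ) ∧ m ≤ (b - δ) - (dc 0).re :=
    ⟨min ((dc 0).re - (a + δ)) ((b - δ) - (dc 0).re),
      lt_min (by linarith [hI0.re1]) (by linarith [hI0.re2]), min_le_left _ _, min_le_right _ _⟩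
  obtain ⟨c, hc, hcd⟩ : ∃ c : ℝ, 0 < c ∧ (deriv (deriv (QC 0)) (dc 0)).re < -c :=
    ⟨-(deriv (deriv (QC 0)) (dc 0)).re / 2, by linarith, by linarith⟩
  have hdd := dd_tend ha'0 hb'2 hz₀m
  have e2 : ∀ᶠ p in 𝓝 (0 : ℂ), ‖dc p - dc 0‖ < δ₁ := by
    have := (cd.sub_const (dc 0)).norm
    refine this.eventually_lt_const ?_
    simp only [sub_self, norm_zero]
    exact hδ₁
  have e3 : ∀ᶠ p in 𝓝 (0 : ℂ), (deriv (deriv (QC p)) (dc p)).re < -c :=
    ((Complex.continuous_re.tendsto _).comp hdd).eventually_lt_const hcd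
  have e4 : ∀ᶠ p in 𝓝 (0 : ℂ), ‖deriv (deriv (QC p)) (dc p)‖ <
      ‖deriv (deriv (QC 0)) (dc 0)‖ + 1 := hdd.norm.eventually_lt_const (by linarith)
  have e5 : ∀ᶠ p in 𝓝 (0 : ℂ), |(dc p).re - (dc 0).re| < m / 4 := by
    have := ((Complex.continuous_re.continuousAt.comp cd).sub_const (dc 0).re).abs
    refine this.eventually_lt_const ?_
    simp only [Function.comp, sub_self, abs_zero]
    positivity
  have e6 : ∀ᶠ p in 𝓝 (0 : ℂ), (dc p).im < (dc 0).im / 2 :=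
    (Complex.continuous_im.continuousAt.comp cd).eventually_lt_const (by
      simp only [Function.comp]
      linarith [hI0.im])
  have q1 : ∀ᶠ p in 𝓝 (0 : ℂ), DifferentiableOn ℂ (QC p) (OR a' b' h) := by
    filter_upwards [e1] with p hp
    exact QC_diff T0 ha'0 hp.pq
  have q5 : ∀ᶠ p in 𝓝 (0 : ℂ), deriv (QC p) (dc p) = 0 := by
    filter_upwards [e1] with p hp
    exact hp.crit.deriv
  have hpert := Pool.Agent.N424.VS.pert ℂ (𝓝 (0 : ℂ)) (fun p => QC p) (QC 0) (OR a' b' h)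
    dc (dc 0) (a - δ) (b + δ) hU q1 (QC_diff T0 ha'0 (PQ0 hb'2)) (QC_unif T0 ha'0 (PQ0 hb'2)) cd q5
    (fun x hx1 hx2 => by
      refine ⟨?_, ?_, ?_⟩
      · simp; linarith
      · simp; linarith
      · simpa using hI0.im2) (by linarith [hI0.re1]) (by linarith [hI0.re2]) f5
    (fun x hx1 hx2 hx3 => f7 x (by linarith) (by linarith) hx3)
  obtain ⟨ε₁, hε₁, hP⟩ := Metric.eventually_nhds_iff.1
    (e1.and (e2.and (e3.and (e4.and (e5.and (e6.and hpert))))))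
  obtain ⟨ε₀, hε₀, hε₀1, hε₀2⟩ : ∃ ε₀ : ℝ, 0 < ε₀ ∧ ε₀ < ε₁ ∧ 2 * π * b' + ε₀ < π := by
    have h1 : 0 < π - 2 * π * b' := by nlinarith
    refine ⟨min (ε₁ / 2) ((π - 2 * π * b') / 2), by positivity, ?_, ?_⟩
    · have := min_le_left (ε₁ / 2) ((π - 2 * π * b') / 2)
      linarith
    · have := min_le_right (ε₁ / 2) ((π - 2 * π * b') / 2)
      linarith
  have hP0 : ∀ p ∈ closedBall (0 : ℂ) ε₀, dist p 0 < ε₁ := by
    intro p hp
    rw [mem_closedBall] at hp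
    linarith
  -- the bound of the potential
  obtain ⟨M, hM⟩ := ((isCompact_closedBall (0 : ℂ) ε₀).prod
    (isCompact_CR a' b' h)).exists_bound_of_continuousOn
    (f := fun x : ℂ × ℂ => QC x.1 x.2) (fun x hx =>
      (QC_cont T0 ha'0 (ball_PQ hε₀2 hx.1) hx.2).continuousWithinAt)
  have hsub : ∀ p ∈ closedBall (0 : ℂ) ε₀, ∀ u ∈ ball (0 : ℂ) δ₁, dc p + u ∈ OR a' b' h := by
    intro p hp u hu
    apply hball
    rw [mem_ball, dist_eq_norm]
    have h1 := (hP (hP0 p hp)).2.1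
    rw [mem_ball_zero_iff] at hu
    have h2 : dc p + u - dc 0 = (dc p - dc 0) + u := by ring
    rw [h2]
    have := norm_add_le (dc p - dc 0) u
    linarith
  obtain ⟨δ', hδ', -, hLX⟩ := Pool.Agent.W719.AX.f_LX δ₁ (M + M) c hδ₁ hc
  obtain ⟨η, hη0, hηδ, hηm⟩ : ∃ η : ℝ, 0 < η ∧ η ≤ δ' ∧ η ≤ m / 4 :=
    ⟨min δ' (m / 4), by positivity, min_le_left _ _, min_le_right _ _⟩
  obtain ⟨κ₂, hκ₂, e7⟩ := hη η hη0
  obtain ⟨ε₂, hε₂, hP2⟩ := Metric.eventually_nhds_iff.1 e7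
  obtain ⟨ε, hε, hεε₀, hεε₂⟩ : ∃ ε : ℝ, 0 < ε ∧ ε ≤ ε₀ ∧ ε < ε₂ :=
    ⟨min ε₀ (ε₂ / 2), by positivity, min_le_left _ _,
      (min_le_right _ _).trans_lt (by linarith)⟩
  have hsubε : ∀ p ∈ closedBall (0 : ℂ) ε, p ∈ closedBall (0 : ℂ) ε₀ :=
    fun p hp => closedBall_subset_closedBall hεε₀ hp
  have hbε : 2 * π * b' + ε < π := by linarith
  obtain ⟨κ, hκ, hκ1, hκ2, hκ3⟩ : ∃ κ : ℝ, 0 < κ ∧ κ ≤ κ₁ ∧ κ ≤ κ₂ ∧ κ ≤ 2 * π * (-(dc 0).im / 2) := by
    have h1 : 0 < 2 * π * (-(dc 0).im / 2) := by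
      have := hI0.im
      have : 0 < -(dc 0).im / 2 := by linarith
      positivity
    exact ⟨min κ₁ (min κ₂ (2 * π * (-(dc 0).im / 2))), by positivity, min_le_left _ _,
      (min_le_right _ _).trans (min_le_left _ _), (min_le_right _ _).trans (min_le_right _ _)⟩
  obtain ⟨Hc, c₁, hc₁, u1, u2, u3⟩ := Hux hG ha'0 hbε hε.le (h := h)
  obtain ⟨C, hC, hCb⟩ := Hbd hG ha'0 hbε hε.le (h := h)
  have hin2 : ∀ p ∈ closedBall (0 : ℂ) ε, ∀ u ∈ ball (0 : ℂ) δ₁, ((p, dc p + u) : ℂ × ℂ) ∈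
      DD ε a' b' h := fun p hp u hu => ⟨hp, OR_sub_CR _ _ _ (hsub p (hsubε p hp) u hu)⟩
  obtain ⟨A, hA, hA0⟩ := hLX η hη0 hηδ ℂ (closedBall 0 ε) qf
    (fun N x => Hn N (x.1, dc x.1 + x.2)) (fun k x => Hc k (x.1, dc x.1 + x.2)) (by
      intro p hp
      have hp0 := hsubε p hp
      have g := hP (hP0 p hp0)
      have hdiff : DifferentiableOn ℂ (qf p) (ball 0 δ₁) := by
        have := QC_diff T0 (h := h) ha'0 g.1.pq
        exact (this.comp (by fun_prop) (fun u hu => hsub p hp0 u hu)).sub_const _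
      refine ⟨hdiff, fun u hu => ?_, ?_, ?_, ?_⟩
      · refine (norm_sub_le _ _).trans (add_le_add ?_ ?_)
        · exact hM (p, dc p + u) ⟨hp0, OR_sub_CR _ _ _ (hsub p hp0 u hu)⟩
        · have h0 := hsub p hp0 0 (mem_ball_self hδ₁)
          rw [add_zero] at h0
          exact hM (p, dc p) ⟨hp0, OR_sub_CR _ _ _ h0⟩
      · unfold qf FC
        rw [add_zero, sub_self]
      · rw [qf_deriv]
        simp only [add_zero]
        exact g.1.crit.deriv
      · rw [qf_deriv2, add_zero]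
        exact g.2.2.1.le) (Filter.eventually_atTop.2 ⟨1, fun N hN p hp =>
          (((Hn_diff hN ha'0 (ball_PQ hbε hp) (h := h)).comp (f := fun u : ℂ => dc p + u)
            (by fun_prop) (fun u hu => hsub p (hsubε p hp) u hu))).continuousOn⟩) (by
      intro k p hp
      exact (u2 k p hp).comp (f := fun u : ℂ => dc p + u) (by fun_prop)
        (fun u hu => hsub p (hsubε p hp) u hu)) (Pool.Agent.W21.AX.ux_comp u1
        (fun x : ℂ × ℂ => (x.1, dc x.1 + x.2)) _ (fun x hx => hin2 x.1 hx.1 x.2 hx.2))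
  obtain ⟨B₂, hB₂⟩ : ∃ B₂ : ℝ, B₂ = ‖deriv (deriv (QC 0)) (dc 0)‖ + 1 := ⟨_, rfl⟩
  have hB₂0 : 0 < B₂ := by rw [hB₂]; positivity
  refine ⟨a', b', h, κ, ε, c₁ * (2 * π / B₂) ^ (1 / 2 : ℝ), C, A, ha'0, ha'1, hb'1, hb'2, hh, hκ,
    hε, by positivity, fun p hp => ((hP (hP0 p (hsubε p hp))).1).mono hκ1, hCb, ?_, ?_⟩
  · refine Pool.Agent.W21.AX.ux_small hA fun K => ?_
    refine ⟨C * (8 + 4 * h), ?_⟩
    have hh0 : 0 < -(dc 0).im / 2 := by linarith [hI0.im]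
    have hlim : ∀ᶠ N : ℕ in atTop, 2 / (N : ℝ) ≤ δ :=
      (tendsto_const_div_atTop_nhds_zero_nat (2 : ℝ)).eventually_le_const hδ
    filter_upwards [hCb, eventually_ge_atTop 1, hlim, exp_half hh0,
      Pool.Agent.W21.AX.exp_small κ hκ 2 K] with N n1 n2 n3 n4 n5 p hp
    have g := hP (hP0 p (hsubε p hp))
    have g5 := g.2.2.2.2.1
    have g6 := g.2.2.2.2.2.1
    have g7 := g.2.2.2.2.2.2
    rw [abs_lt] at g5
    have g8 := hP2 (y := p) (by rw [mem_closedBall] at hp; linarith)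
    have hNR : (0 : ℝ) ≤ N := Nat.cast_nonneg N
    have r := one hS (κ₂ := κ₂) (η := η) (C := C) (N := N) hδ ha'0 ha'1 hb'1 hb'2 (by linarith)
      (g.1.mono hκ1) hη0 (by linarith) (by linarith) g8 (by
        intro x hx1 hx2
        by_cases hx : x = (dc p).re
        · rw [hx, Complex.re_add_im]
          exact le_rfl
        · exact (g7.2 x hx1 hx2 hx).le) hκ2 (by nlinarith) hC
      (fun w hw => n1 (p, w) ⟨hp, hw⟩) n2 n3 (by
        refine (Real.exp_le_exp.2 ?_).trans n4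
        have : 2 * π * (N : ℝ) * (-(dc 0).im / 2) ≤ 2 * π * N * (-(dc p).im) :=
          mul_le_mul_of_nonneg_left (by linarith) (by positivity)
        linarith)
    refine r.trans ?_
    calc C * (8 + 4 * h) * ((N : ℝ) ^ 2 * Real.exp (-(κ * N))) ≤
          C * (8 + 4 * h) * (1 / (N : ℝ) ^ K) := by gcongr
      _ = _ := by ring
  · intro p hp
    have g := hP (hP0 p (hsubε p hp))
    have g4 := g.2.2.2.1
    have g3 := g.2.2.1
    rw [hA0 p hp, norm_mul, qf_deriv2]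
    simp only [add_zero]
    have h0 := hin2 p hp 0 (mem_ball_self hδ₁)
    rw [add_zero] at h0
    refine mul_le_mul (u3 _ h0) ?_ (by positivity) (norm_nonneg _)
    have e8 : (1 / 2 : ℂ) = ((1 / 2 : ℝ) : ℂ) := by push_cast; ring
    rw [e8, Complex.norm_cpow_real, norm_div, norm_neg, norm_mul, Complex.norm_real,
      Real.norm_of_nonneg hπ.le]
    have e9 : ‖(2 : ℂ)‖ = 2 := by norm_num
    rw [e9]
    have hpos : 0 < ‖deriv (deriv (QC p)) (dc p)‖ := by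
      rw [norm_pos_iff]
      intro h
      rw [h] at g3
      simp at g3
      linarith
    refine Real.rpow_le_rpow (by positivity) ?_ (by norm_num)
    rw [← hB₂] at g4
    gcongr

end Pool.Agent.N566.CX
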