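import Pool.Agent.N566.CX.Tail
import Pool.Agent.N886.VS.Clasp
import Pool.Agent.W962.AX.Finx
import Pool.Agent.W303.AX.UX1
import Pool.Agent.W67.AX.UX2
import Pool.Agent.W21.AX.LOCX
import Pool.Agent.N561.AX.MainX

/-!
# The clasp with expansions: assembly
-/

set_option autoImplicit false

namespace Pool.Agent.N566.CX

open Finset Filter Topology Metric
open Pool.Agent.N561
open Pool.Agent.N561.AX
open Pool.Agent.W711.HT hiding XX
open Pool.Agent.TH563.UV
open Pool.Agent.TH563.V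
open Pool.Agent.W719.AX (UX GX)
open Pool.Agent.N886.VS (rc_sub log_small)
open scoped Real

/-- the exact factor, for the expansion -/
lemma fac_eq (h1 : S_CEXE) {N : ℕ} (hN : 2 ≤ N) (z : ℂ) :
    (N : ℂ) ^ (2 * 1) * (-1) ^ (N * 1) * Complex.exp (-(N * (FC z + π * Complex.I / 2))) *
      stp (-2) (fun _ _ => 1) N z =
    -(2 * π * Complex.I) * ((N * Complex.exp (-(N * FC z)) * Wc N z) *
      Complex.exp (π * Complex.I / 2 / N)) := by
  have hN0 : (N : ℂ) ≠ 0 := by
    have : N ≠ 0 := by omega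
    exact_mod_cast this
  rw [h1 N hN z]
  have e1 : ((-1 : ℂ)) ^ (N * 1) * (-1) ^ N = 1 := by
    rw [mul_one, ← mul_pow]
    norm_num
  have e2 : Complex.exp (-(N * (FC z + π * Complex.I / 2))) *
      Complex.exp (π * Complex.I * N / 2 + π * Complex.I / (2 * N)) =
      Complex.exp (-(N * FC z)) * Complex.exp (π * Complex.I / 2 / N) := by
    rw [← Complex.exp_add, ← Complex.exp_add]
    congr 1
    field_simp
    ring
  calc (N : ℂ) ^ (2 * 1) * (-1) ^ (N * 1) * Complex.exp (-(N * (FC z + π * Complex.I / 2))) *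
        -(Complex.I * (-1) ^ N * (2 * π / N) *
          Complex.exp (π * Complex.I * N / 2 + π * Complex.I / (2 * N)) * Wc N z)
      = -((N : ℂ) ^ 2 / N * 2 * π * Complex.I * ((-1) ^ (N * 1) * (-1) ^ N) *
          (Complex.exp (-(N * (FC z + π * Complex.I / 2))) *
            Complex.exp (π * Complex.I * N / 2 + π * Complex.I / (2 * N))) * Wc N z) := by ring
    _ = _ := by
        rw [e1, e2]
        field_simp

/-- **the leaf of weight `-2`, with expansions** -/
theorem lpx (h1 : S_CEXE) (h3 : S_CNEAR) (h5 : S_CFAR) (h2 : S_CQ) (h6 : S_CF)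
    (h9 : S_CCRE) (hw : ∃ (ε c₀ : ℝ) (A : ℕ → ℂ → ℂ), 0 < ε ∧
      0 < c₀ ∧ UX (fun N p => (N : ℂ) * Complex.exp (-(N * FC p)) * Wc N p) A (closedBall 0 ε) ∧
      ∀ p ∈ closedBall (0 : ℂ) ε, c₀ ≤ ‖A 0 p‖) (g : ℝ) (hg : 0 < g) :
    ∃ r₂ c₁ C₁ : ℝ, 0 < r₂ ∧ 0 < c₁ ∧ 0 < C₁ ∧ LPX (-2) (zc 0) g sg r₂ c₁ C₁ := by
  have hπ := Real.pi_pos
  obtain ⟨r, hr0, -, hcr⟩ := h9 g hg
  obtain ⟨r', hr'0, -, hnear⟩ := h3
  obtain ⟨r'', c, C, hr''0, hc, hC, hFd, hFe, hF2⟩ := h6
  obtain ⟨ε, c₀, A, hε, hc₀, hux, hA0⟩ := hw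
  have hpos : 0 < (FC 0).re := h2.2.2.2.2.2.1
  obtain ⟨k, hkdef⟩ : ∃ k : ℂ, k = π * Complex.I / 2 := ⟨_, rfl⟩
  have hk : k.re = 0 := by
    rw [hkdef, show (π : ℂ) * Complex.I / 2 = ((π / 2 : ℝ) : ℂ) * Complex.I by push_cast; ring]
    simp
  have hex : ∀ N : ℕ, 2 ≤ N → ∃ u : ℂ, ‖u‖ = 1 ∧ ∀ ψ : ℂ,
      stp (-2) (fun _ _ => 1) N ψ = 2 * π / N * u * Wc N ψ := by
    intro N hN
    have hN0 : (N : ℝ) ≠ 0 := by
      have : N ≠ 0 := by omega
      exact_mod_cast this
    refine ⟨-(Complex.I * (-1) ^ N *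
      Complex.exp (π * Complex.I * N / 2 + π * Complex.I / (2 * N))), ?_, fun ψ => ?_⟩
    · have e : (π : ℂ) * Complex.I * N / 2 + π * Complex.I / (2 * N) =
          ((π * N / 2 + π / (2 * N) : ℝ) : ℂ) * Complex.I := by
        push_cast
        ring
      rw [norm_neg, norm_mul, norm_mul, e, Complex.norm_exp_ofReal_mul_I, norm_pow, norm_neg,
        norm_one, one_pow, Complex.norm_I]
      norm_num
    · rw [h1 N hN ψ]
      ring
  refine ⟨min (min r (ε / 2)) (min r' r''), c, C,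
    lt_min (lt_min hr0 (by positivity)) (lt_min hr'0 hr''0), hc, hC, ?_⟩
  intro a₀ b₀ hb₀ hba h3a
  have ha₀ : 0 < a₀ := hb₀.trans_le hba
  have k1 : 3 * a₀ ≤ r := h3a.trans ((min_le_left _ _).trans (min_le_left _ _))
  have k0 : 3 * a₀ ≤ ε / 2 := h3a.trans ((min_le_left _ _).trans (min_le_right _ _))
  have k2 : 3 * a₀ ≤ r' := h3a.trans ((min_le_right _ _).trans (min_le_left _ _))
  have k3 : 3 * a₀ ≤ r'' := h3a.trans ((min_le_right _ _).trans (min_le_right _ _))
  have hcb : ∀ z ∈ Rc a₀ b₀, z ∈ closedBall (0 : ℂ) ε := by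
    intro z hz
    rw [mem_closedBall, dist_zero_right]
    have i1 : ‖z‖ ≤ |z.re| + |z.im| := Complex.norm_le_abs_re_add_abs_im z
    have i2 : |z.re| < a₀ := hz.1
    have i3 : |z.im| < b₀ := hz.2
    linarith
  obtain ⟨κ, hκ, hfar⟩ := h5 a₀ ha₀
  have hop : IsOpen (Rc a₀ b₀) := by
    have e : Rc a₀ b₀ = {z : ℂ | |z.re| < a₀} ∩ {z : ℂ | |z.im| < b₀} := rfl
    rw [e]
    exact (isOpen_lt Complex.continuous_re.abs continuous_const).inter
      (isOpen_lt Complex.continuous_im.abs continuous_const)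
  have hst : ∀ N, Differentiable ℂ (stp (-2) (fun _ _ => 1) N) :=
    (Pool.Agent.W398.HT.t_STPE (-2) (fun _ _ => 1) fun N => differentiable_const _).1
  -- the expansion
  obtain ⟨E, hE⟩ : ∃ E : ℕ → ℂ → ℂ, E = fun k _ => (π * Complex.I / 2) ^ k / (k.factorial : ℂ) :=
    ⟨_, rfl⟩
  have hexp : UX (fun N (_ : ℂ) => Complex.exp (π * Complex.I / 2 / N)) E (Rc a₀ b₀) := by
    rw [hE]
    exact Pool.Agent.W21.AX.ux_comp (Pool.Agent.W962.AX.ux_exp (π * Complex.I / 2))
      (fun _ : ℂ => ()) (Rc a₀ b₀) (fun _ _ => Set.mem_univ _)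
  obtain ⟨Y, hY⟩ : ∃ Y : ℕ → ℂ → ℂ,
      Y = fun (N : ℕ) (p : ℂ) => (N : ℂ) * Complex.exp (-((N : ℂ) * FC p)) * Wc N p := ⟨_, rfl⟩
  have huxr : UX Y A (Rc a₀ b₀) := by
    rw [hY]
    intro K
    obtain ⟨C', hC'⟩ := hux K
    exact ⟨C', hC'.mono fun N hN p hp => hN p (hcb p hp)⟩
  have hprod : UX (fun N p => Y N p * Complex.exp (π * Complex.I / 2 / N))
      (Pool.Agent.W719.AX.cv A E) (Rc a₀ b₀) :=
    Pool.Agent.W303.AX.uxmul ℂ Y (fun N (_ : ℂ) => Complex.exp (π * Complex.I / 2 / N)) A E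
      (Rc a₀ b₀) huxr hexp
  obtain ⟨B, hB⟩ : ∃ B : ℕ → ℂ → ℂ, B = fun k p => -(2 * π * Complex.I) *
      Pool.Agent.W719.AX.cv A E k p := ⟨_, rfl⟩
  have hprod2 : UX (fun N p => -(2 * π * Complex.I) *
      (Y N p * Complex.exp (π * Complex.I / 2 / N))) B (Rc a₀ b₀) := by
    rw [hB]
    refine Pool.Agent.W67.AX.uxcmul (fun _ : ℂ => -(2 * π * Complex.I)) (2 * π)
      (fun p _ => ?_) hprod
    rw [norm_neg, norm_mul, norm_mul, Complex.norm_I, Complex.norm_real,
      Real.norm_of_nonneg hπ.le]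
    simp
  have hUX : UX (fun N z => (N : ℂ) ^ (2 * 1) * (-1) ^ (N * 1) *
      Complex.exp (-(N * (FC z + k))) * stp (-2) (fun _ _ => 1) N z) B (Rc a₀ b₀) := by
    refine Pool.Agent.W67.AX.congr' ?_ hprod2
    filter_upwards [eventually_ge_atTop 2] with N hN p hp
    rw [hY, hkdef]
    exact (fac_eq h1 hN p).symm
  have hB0 : ∀ z ∈ Rc a₀ b₀, B 0 z ≠ 0 := by
    intro z hz h
    have hA : A 0 z ≠ 0 := by
      intro h'
      have := hA0 z (hcb z hz)
      rw [h', norm_zero] at this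
      linarith
    have e0 : B 0 z = -(2 * π * Complex.I) * A 0 z := by
      rw [hB, hE]
      simp [Pool.Agent.W719.AX.cv]
    rw [e0] at h
    have h2 : -(2 * (π : ℂ) * Complex.I) ≠ 0 := by
      refine neg_ne_zero.2 (mul_ne_zero (mul_ne_zero two_ne_zero ?_) Complex.I_ne_zero)
      exact_mod_cast hπ.ne'
    exact (mul_ne_zero h2 hA) h
  have hGX : GX a₀ b₀ 1 (stp (-2) fun _ _ => 1) (fun ψ => FC ψ + k) B := by
    refine ⟨hUX, ?_, hB0⟩
    refine Pool.Agent.W303.AX.uxan _ _ _ hop ?_ hUX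
    refine Eventually.of_forall fun N => ?_
    refine DifferentiableOn.mul (DifferentiableOn.mul (differentiableOn_const _) ?_)
      (hst N).differentiableOn
    refine DifferentiableOn.cexp (DifferentiableOn.neg (DifferentiableOn.const_mul ?_ _))
    exact (hFd.mono fun z hz => rc_sub (by linarith) (by linarith) hz).add_const k
  refine ⟨κ, hκ, fun ψ => FC ψ + k, zc, B, ⟨?_, ?_, ?_, ?_, ?_, ?_⟩, hGX, ?_⟩
  · exact hst
  · exact (Pool.Agent.W398.HT.t_STPE (-2) (fun _ _ => 1) fun N => differentiable_const _).2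
  · simp only [Complex.add_re]
    rw [hk]
    linarith
  · have hd2 : deriv (deriv fun ψ => FC ψ + k) = deriv (deriv FC) := by
      congr 1
      funext ψ
      exact deriv_add_const k
    refine ⟨?_, ?_, ?_, ?_⟩
    · exact (hFd.mono fun z hz => rc_sub k3 (by linarith) hz).add_const k
    · intro w hw
      change FC (-w) + k = FC w + k
      rw [hFe w (rc_sub k3 (by linarith) hw)]
    · intro w hw
      rw [hd2]
      have := (hF2 w (rc_sub (by linarith) (by linarith) hw)).1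
      simpa using this
    · intro w hw
      rw [hd2]
      have := (hF2 w (rc_sub (by linarith) (by linarith) hw)).2
      simpa using this
  · intro ε hε
    filter_upwards [hnear (ε / 2) (by positivity), log_small (ε := ε / 2) (by positivity),
      eventually_ge_atTop 2] with N e1 e2 hN2 z hz
    obtain ⟨f1, f2⟩ := e1 z (rc_sub (by linarith) (by linarith) hz)
    obtain ⟨u, hu, hst⟩ := hex N hN2
    have hN0 : (0 : ℝ) < N := by
      have : 0 < N := by omega
      exact_mod_cast this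
    have hn : ‖stp (-2) (fun _ _ => 1) N z‖ = 2 * π / N * ‖Wc N z‖ := by
      rw [hst z, norm_mul, norm_mul, hu, mul_one]
      congr 1
      rw [norm_div, norm_mul, Complex.norm_real, Real.norm_of_nonneg Real.pi_pos.le]
      simp
    have hq : 0 < 2 * π / (N : ℝ) := by positivity
    have hw : 0 < ‖Wc N z‖ := norm_pos_iff.mpr f1
    refine ⟨?_, ?_⟩
    · rw [← norm_pos_iff, hn]
      positivity
    · rw [hn, Real.log_mul hq.ne' hw.ne']
      have e3 : ((fun ψ => FC ψ + k) z).re = (FC z).re := by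
        simp only [Complex.add_re]
        rw [hk, add_zero]
      rw [e3]
      have e4 : Real.log (2 * π / N) + Real.log ‖Wc N z‖ - N * (FC z).re =
          Real.log (2 * π / N) + (Real.log ‖Wc N z‖ - N * (FC z).re) := by ring
      rw [e4]
      refine (abs_add_le _ _).trans ?_
      linarith
  · filter_upwards [hfar, eventually_ge_atTop 7] with N e1 hN x y hx hx' hy
    obtain ⟨u, hu, hst⟩ := hex N (by omega)
    have hN0 : (7 : ℝ) ≤ N := by exact_mod_cast hN
    have hn : ‖stp (-2) (fun _ _ => 1) N (x + y * Complex.I)‖ =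
        2 * π / N * ‖Wc N (x + y * Complex.I)‖ := by
      rw [hst, norm_mul, norm_mul, hu, mul_one]
      congr 1
      rw [norm_div, norm_mul, Complex.norm_real, Real.norm_of_nonneg Real.pi_pos.le]
      simp
    have hq : 2 * π / (N : ℝ) ≤ 1 := by
      rw [div_le_one (by linarith)]
      have := Real.pi_lt_d2
      linarith
    rw [hn]
    have e2 := e1 x y hx hx' hy
    have e3 : ((fun ψ => FC ψ + k) 0).re = (FC 0).re := by
      simp only [Complex.add_re]
      rw [hk, add_zero]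
    rw [e3]
    calc 2 * π / N * ‖Wc N (x + y * Complex.I)‖ ≤ 1 * Real.exp (N * ((FC 0).re - κ)) := by
          gcongr
      _ ≤ Real.exp (N * ((FC 0).re - ((1 : ℕ) : ℝ) * (κ / 2))) := by
          rw [one_mul]
          refine Real.exp_le_exp.mpr (mul_le_mul_of_nonneg_left ?_ (by linarith))
          push_cast
          linarith
  · intro ψ hψ
    obtain ⟨f1, f2, f3, f4⟩ := hcr ψ (rc_sub k1 (by linarith) hψ)
    refine ⟨f1, ?_, ?_, f4.add_const k⟩
    · push_cast
      exact f2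
    · rw [hkdef]
      exact f3

end Pool.Agent.N566.CX
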