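import Pool.Agent.N561.AX.Stm
import Pool.Agent.N207.VS.Lapl

/-!
# The clasp with expansions: statements

The function of a clasp is `stp (-2) 1`, up to an explicit factor the sum `Wc` (`N561/C/Stm.lean`).
-/

set_option autoImplicit false

namespace Pool.Agent.N566.CX

open Finset Filter Topology Metric
open Pool.Agent.W711.HT hiding XX
open Pool.Agent.TH563.UV
open Pool.Agent.TH563.V
open Pool.Agent.N561
open Pool.Agent.N207.VS (Gf W)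
open scoped Real

/-- job CX1: the exact factor between the function of a clasp and the sum (as `S_CEX`) -/
def S_CEXE : Prop := ∀ N : ℕ, 2 ≤ N → ∀ ψ : ℂ, stp (-2) (fun _ _ => 1) N ψ =
  -(Complex.I * (-1) ^ N * (2 * π / N) *
    Complex.exp (π * Complex.I * N / 2 + π * Complex.I / (2 * N)) * Wc N ψ)

/-- job CX2: the two descriptions of the critical value, with the exact constant (as `S_CCR`) -/
def S_CCRE : Prop := ∀ g : ℝ, 0 < g → ∃ r : ℝ, 0 < r ∧ r ≤ 1 / 10 ∧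
  ∀ ψ ∈ Rc r r, ‖zc ψ - zc 0‖ ≤ g ∧
    Complex.I * (-2) * zc ψ / (2 * π) + Complex.I + deriv (fun w => sg ψ w) (zc ψ) = 0 ∧
    FC ψ + π * Complex.I / 2 = qq (-2) (fun _ => 0) (zc ψ) + sg ψ (zc ψ) ∧
    HasDerivAt FC (deriv (fun w => sg w (zc ψ)) ψ) ψ

/-- job CX3: the averages `Gf` have expansions -/
def S_GFX : Prop := ∀ s : ℝ, ∃ A : ℕ → ℂ → ℂ, (∀ w ∈ W, A 0 w = LL w) ∧
  (∀ k, DifferentiableOn ℂ (A k) W) ∧
  ∀ K ⊆ W, IsCompact K → ∀ n : ℕ, ∃ C a₀ : ℝ, 0 < a₀ ∧ ∀ a : ℝ, 0 ≤ a → a ≤ a₀ → ∀ w ∈ K,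
    ‖Gf a (w + (s * a : ℝ)) - ∑ k ∈ range n, A k w * (a : ℂ) ^ k‖ ≤ C * a ^ n

/-- job CX4: a sum over integers is the integral over the lower side of a rectangle, up to a small
error; in the upper half plane there is the weight `exp (-2 π N y)` -/
def S_SIW : Prop := ∀ (F : ℂ → ℂ) (U : Set ℂ) (N a b : ℕ) (h T : ℝ), IsOpen U →
  DifferentiableOn ℂ F U → 0 < N → a ≤ b → 0 < h → Real.exp (-(2 * π * N * h)) ≤ 1 / 2 →
  0 ≤ T →
  (∀ x y : ℝ, ((a : ℝ) - 1 / 2) / N ≤ x → x ≤ ((b : ℝ) - 1 / 2) / N → |y| ≤ h →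
    (x : ℂ) + y * Complex.I ∈ U) →
  (∀ y : ℝ, |y| ≤ h →
    ‖F ((((a : ℝ) - 1 / 2) / N : ℝ) + y * Complex.I)‖ * Real.exp (-(2 * π * N * max y 0)) ≤ T ∧
    ‖F ((((b : ℝ) - 1 / 2) / N : ℝ) + y * Complex.I)‖ * Real.exp (-(2 * π * N * max y 0)) ≤ T) →
  (∀ x : ℝ, ((a : ℝ) - 1 / 2) / N ≤ x → x ≤ ((b : ℝ) - 1 / 2) / N →
    ‖F (x + h * Complex.I)‖ * Real.exp (-(2 * π * N * h)) ≤ T ∧
    ‖F (x - h * Complex.I)‖ * Real.exp (-(2 * π * N * h)) ≤ T) →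
  ‖∑ d ∈ Ico a b, F ((d : ℂ) / N) -
    N * ∫ x in (((a : ℝ) - 1 / 2) / N)..(((b : ℝ) - 1 / 2) / N), F (x - h * Complex.I)‖ ≤
    T * (4 * ((b : ℝ) - a) + 4 * N * h)

end Pool.Agent.N566.CX
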