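import Pool.Agent.N566.CX.Lap

/-!
# The clasp with expansions: the whole sum near `ψ = 0`
-/

set_option autoImplicit false

namespace Pool.Agent.N566.CX

open Finset Filter Topology Metric MeasureTheory
open Pool.Agent.W711.HT Pool.Agent.N561
open Pool.Agent.N839.VS (CR OR OR_sub_CR isOpen_OR isCompact_CR isOpen_DA tend_floor tend_ceil
  MM MM_pos one_le_MM)
open Pool.Agent.N720.VS (PQ mem_DA mem_strip Dat qc PQ0 slit0 QC_cont FC_cont dc_cont crit_ev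
  slit_ev isOpen_PQ QC_diff qc_diff QC_unif term_eq tm tm_low tm_high tm_up Wc_eq exists_ab)
open Pool.Agent.W719.AX (UX)
open scoped Real

/-- **the sum of the clasp near `ψ = 0`**, with expansion -/
theorem wcx (hG : S_GFX) (hS : S_SIW) (hQ : S_CQ) : ∃ (ε c₀ : ℝ) (A : ℕ → ℂ → ℂ), 0 < ε ∧
    0 < c₀ ∧ UX (fun N p => (N : ℂ) * Complex.exp (-(N * FC p)) * Wc N p) A (closedBall 0 ε) ∧
      ∀ p ∈ closedBall (0 : ℂ) ε, c₀ ≤ ‖A 0 p‖ := by
  have hπ := Real.pi_pos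
  have hM := MM_pos
  obtain ⟨a₀, b₀, ha₀, hb₀, -, hlap⟩ := lapx hG hS hQ
  obtain ⟨L₀, hL₀⟩ : ∃ L₀ : ℝ, L₀ = (FC 0).re := ⟨_, rfl⟩
  have hL0 : 0 < L₀ := by rw [hL₀]; exact hQ.2.2.2.2.2.1
  obtain ⟨τ, hτ, hhalf⟩ := Pool.Agent.TH653.Z.half (L₀ / 4) (by positivity)
  obtain ⟨a₁, b₁, ha₁, ha₁6, hb₁3, hb₁, hβ, hbM⟩ := exists_ab (β := L₀ / 4) (by positivity)
  obtain ⟨am, ham, ham0, ham1⟩ : ∃ am : ℝ, 0 < am ∧ am ≤ a₀ ∧ am ≤ a₁ :=
    ⟨min a₀ a₁, lt_min ha₀ ha₁, min_le_left _ _, min_le_right _ _⟩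
  obtain ⟨bm, hbm, hbm0, hbm1⟩ : ∃ bm : ℝ, bm < 1 / 2 ∧ b₀ ≤ bm ∧ b₁ < bm :=
    ⟨max b₀ ((b₁ + 1 / 2) / 2), max_lt hb₀ (by linarith), le_max_left _ _,
      lt_of_lt_of_le (by linarith) (le_max_right _ _)⟩
  obtain ⟨δ, hδ, hδ1, hδ2⟩ : ∃ δ : ℝ, 0 < δ ∧ δ ≤ am / 4 ∧ δ ≤ (1 / 2 - bm) / 4 :=
    ⟨min (am / 4) ((1 / 2 - bm) / 4), lt_min (by positivity) (by linarith), min_le_left _ _,
      min_le_right _ _⟩
  obtain ⟨a, haeq⟩ : ∃ a : ℝ, a = am / 2 := ⟨_, rfl⟩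
  obtain ⟨b, hbeq⟩ : ∃ b : ℝ, b = (bm + 1 / 2) / 2 := ⟨_, rfl⟩
  obtain ⟨a', b', h, κ, ε, c₀, C, A, ha'0, ha'1, hb'1, hb'2, hh, hκ, hε, hc₀, hI, hH, hA, hA0⟩ :=
    hlap a b δ hδ (by linarith) (by linarith) (by linarith) (by linarith)
  have ha : 0 < a := by linarith
  have hb0 : 0 < b := by linarith
  have haβ := hβ a ha (by linarith)
  have hz0 : (0 : ℂ) ∈ closedBall (0 : ℂ) ε := mem_closedBall_self hε.le
  have hI0 := hI 0 hz0
  have hF0 : ContinuousAt FC 0 := FC_cont T0 ha'0 (PQ0 hb'2) slit0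
    (⟨by linarith [hI0.re1], by linarith [hI0.re2], hI0.im2.le⟩ : dc 0 ∈ CR a' b' h)
  have e1 : ∀ᶠ p in 𝓝 (0 : ℂ), L₀ / 2 < (FC p).re := by
    refine (Complex.continuous_re.continuousAt.comp hF0).eventually_const_lt ?_
    simp only [Function.comp]
    rw [← hL₀]
    linarith
  have e2 : ∀ᶠ p : ℂ in 𝓝 0, |p.im| < min 2 τ := by
    have : ContinuousAt (fun p : ℂ => |p.im|) 0 := Complex.continuous_im.abs.continuousAt
    refine this.eventually_lt_const ?_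
    simp only [Complex.zero_im, abs_zero]
    exact lt_min (by norm_num) hτ
  have e3 : ∀ᶠ p : ℂ in 𝓝 0, |p.re| < π := by
    have : ContinuousAt (fun p : ℂ => |p.re|) 0 := Complex.continuous_re.abs.continuousAt
    refine this.eventually_lt_const ?_
    simp only [Complex.zero_re, abs_zero]
    exact hπ
  have e4 : ∀ᶠ p : ℂ in 𝓝 0, ‖2 * Complex.cos p - 2‖ < 1 / (2 * MM) := by
    have : ContinuousAt (fun p : ℂ => ‖2 * Complex.cos p - 2‖) 0 := by fun_prop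
    refine this.eventually_lt_const ?_
    simp only [Complex.cos_zero, mul_one, sub_self, norm_zero]
    positivity
  obtain ⟨ρ, hρ, hP⟩ := Metric.eventually_nhds_iff.1 (e1.and (e2.and (e3.and e4)))
  obtain ⟨ε', hε', hε'1, hε'2⟩ : ∃ ε' : ℝ, 0 < ε' ∧ ε' ≤ ε ∧ ε' < ρ :=
    ⟨min ε (ρ / 2), by positivity, min_le_left _ _, (min_le_right _ _).trans_lt (by linarith)⟩
  have hsub : ∀ p ∈ closedBall (0 : ℂ) ε', p ∈ closedBall (0 : ℂ) ε :=
    fun p hp => closedBall_subset_closedBall hε'1 hp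
  obtain ⟨κ', hκ', hκ'1, hκ'2⟩ : ∃ κ' : ℝ, 0 < κ' ∧ κ' ≤ κ ∧ κ' ≤ L₀ / 4 :=
    ⟨min κ (L₀ / 4), by positivity, min_le_left _ _, min_le_right _ _⟩
  refine ⟨ε', c₀, A, hε', hc₀, ?_, fun p hp => hA0 p (hsub p hp)⟩
  refine Pool.Agent.W21.AX.ux_small (Pool.Agent.W21.AX.ux_comp hA id (closedBall 0 ε') hsub)
    fun K => ?_
  refine ⟨max C 1, ?_⟩
  have hlim : ∀ᶠ N : ℕ in atTop, 2 / (N : ℝ) ≤ min δ (b - b₁) :=
    (tendsto_const_div_atTop_nhds_zero_nat (2 : ℝ)).eventually_le_const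
      (lt_min hδ (by linarith))
  filter_upwards [hH, hhalf, eventually_ge_atTop 1, hlim,
    Pool.Agent.W21.AX.exp_small κ' hκ' 2 K] with N n1 n2 hN n3 n4 p hp
  simp only [id]
  have hN' : (0 : ℝ) < N := by exact_mod_cast hN
  have hIp := hI p (hsub p hp)
  obtain ⟨g4, g5, g6, g7⟩ := hP (y := p) (by rw [mem_closedBall] at hp; linarith)
  have n3a : 2 ≤ δ * N := by
    have := n3.trans (min_le_left _ _)
    rwa [div_le_iff₀ hN'] at this
  have n3b : 2 ≤ (b - b₁) * N := by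
    have := n3.trans (min_le_right _ _)
    rwa [div_le_iff₀ hN'] at this
  obtain ⟨T, hT⟩ : ∃ T : ℝ, T = max C 1 * Real.exp (N * ((FC p).re - κ')) := ⟨_, rfl⟩
  have hlow : ∀ x : ℝ, x ≤ N * (L₀ / 4) → Real.exp x ≤ T := by
    intro x hx
    rw [hT]
    calc Real.exp x ≤ 1 * Real.exp (N * ((FC p).re - κ')) := by
          rw [one_mul]
          refine Real.exp_le_exp.2 (hx.trans (mul_le_mul_of_nonneg_left ?_ hN'.le))
          linarith
      _ ≤ _ := by gcongr; exact le_max_right _ _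
  -- the term at the end of the window
  obtain ⟨B, hB⟩ : ∃ B : ℕ, B = ⌊b * N⌋₊ := ⟨_, rfl⟩
  have hB1 : b * N < (B : ℝ) + 1 := by rw [hB]; exact Nat.lt_floor_add_one _
  have hB2 : (B : ℝ) ≤ b * N := by rw [hB]; exact Nat.floor_le (by positivity)
  have hBN : ((B : ℂ) / N) = (((B : ℝ) / N : ℝ) : ℂ) := by push_cast; rfl
  have hBt : ‖tm N B p‖ ≤ T := by
    have h1 : b - δ ≤ (B : ℝ) / N := by
      rw [le_div_iff₀ hN']; nlinarith
    have h2 : (B : ℝ) / N ≤ b + δ := by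
      rw [div_le_iff₀ hN']; nlinarith
    have hmem : ((B : ℂ) / N) ∈ CR a' b' h := by
      rw [hBN]
      refine ⟨?_, ?_, ?_⟩
      · rw [Complex.ofReal_re]; linarith
      · rw [Complex.ofReal_re]; linarith
      · rw [Complex.ofReal_im, abs_zero]; exact hh.le
    rw [term_eq T0 ha'0 hIp.pq hN hmem]
    refine (F_bd hN (n1 (p, (B : ℂ) / N) ⟨hsub p hp, hmem⟩)).trans ?_
    have h3 := hIp.side ((B : ℝ) / N) (Or.inr ⟨h1, h2⟩) 0 (by
      rw [abs_zero]; linarith [hIp.im])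
    rw [Complex.ofReal_zero, zero_mul, add_zero, max_self, mul_zero, sub_zero, ← hBN] at h3
    rw [hT]
    have h4 : 0 ≤ ‖Hn N (p, (B : ℂ) / N)‖ := norm_nonneg _
    gcongr
    · exact le_max_left _ _
    · linarith
  -- the terms outside the window
  obtain ⟨S, hSdef⟩ : ∃ S : ℂ, S = ∑ d ∈ range N \ Ico (⌈a * N⌉₊) (⌊b * N⌋₊), tm N d p :=
    ⟨_, rfl⟩
  have hlt : ∀ d : ℕ, d < ⌊b * N⌋₊ → 2 * d < N := by
    intro d hd
    have g2 : (d : ℝ) < b * N := Nat.lt_of_lt_floor hd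
    have g4 : (2 * d : ℝ) < N := by nlinarith
    exact_mod_cast g4
  have hsubN : Ico (⌈a * N⌉₊) (⌊b * N⌋₊) ⊆ range N := by
    intro d hd
    rw [Finset.mem_Ico] at hd
    rw [Finset.mem_range]
    have := hlt d hd.2
    omega
  have hk : Wc N p = (∑ d ∈ Ico (⌈a * N⌉₊) (⌊b * N⌋₊), tm N d p) + S := by
    rw [hSdef, Wc_eq, ← Finset.sum_sdiff hsubN]
    ring
  have hψ2 : |p.im| ≤ 2 := g5.le.trans (min_le_left _ _)
  have hup : ∀ d : ℕ, N ≤ 2 * d → d < N → ‖Rp N d p‖ ≤ Sd N d ^ 2 * Real.exp (N * (L₀ / 4)) := by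
    intro d hd1 hd2
    have h1 : (N : ℝ) / 2 ≤ d := by
      rw [div_le_iff₀ two_pos]
      have : (N : ℝ) ≤ 2 * d := by exact_mod_cast hd1
      linarith
    have h2 := n2 d h1 hd2 p.re p.im g6.le (g5.le.trans (min_le_right _ _))
    rw [Complex.re_add_im] at h2
    rw [mul_comm (N : ℝ)]
    exact h2
  have hSb : ‖S‖ ≤ N * T := by
    have hbound : ∀ d ∈ range N \ Ico (⌈a * N⌉₊) (⌊b * N⌋₊), ‖tm N d p‖ ≤ T := by
      intro d hd
      rw [Finset.mem_sdiff, Finset.mem_range, Finset.mem_Ico, not_and_or, not_le, not_lt] at hd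
      obtain ⟨hdN, hd⟩ := hd
      by_cases hd2 : 2 * d ≤ N
      · rcases hd with hd | hd
        · have g2 : (d : ℝ) < a * N := Nat.lt_ceil.1 hd
          refine (tm_low ha hN hd2 g2.le hψ2).trans (hlow _ ?_)
          exact mul_le_mul_of_nonneg_left haβ hN'.le
        · refine (tm_high (by linarith) hb₁ hbM hN (by rw [hB]; exact hd) hd2 (by nlinarith)
            g7.le).trans hBt
      · exact (tm_up (by omega) hdN (hup d (by omega) hdN)).trans (hlow _ le_rfl)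
    rw [hSdef]
    refine (norm_sum_le _ _).trans ((Finset.sum_le_card_nsmul _ _ _ hbound).trans ?_)
    rw [nsmul_eq_mul]
    have e3 : (((range N \ Ico (⌈a * N⌉₊) (⌊b * N⌋₊)).card : ℕ) : ℝ) ≤ N := by
      have := Finset.card_le_card (Finset.sdiff_subset
        (s := range N) (t := Ico (⌈a * N⌉₊) (⌊b * N⌋₊)))
      rw [Finset.card_range] at this
      exact_mod_cast this
    have hT0 : 0 ≤ T := by rw [hT]; positivity
    gcongr
  have e5 : (N : ℂ) * Complex.exp (-(N * FC p)) * Wc N p - (N : ℂ) * Complex.exp (-(N * FC p)) *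
      ∑ d ∈ Ico (⌈a * N⌉₊) (⌊b * N⌋₊), tm N d p = (N : ℂ) * Complex.exp (-(N * FC p)) * S := by
    rw [hk]; ring
  rw [e5, norm_mul, norm_mul, Complex.norm_natCast, Complex.norm_exp]
  have e6 : (-((N : ℂ) * FC p)).re = -(N * (FC p).re) := by simp
  rw [e6]
  calc (N : ℝ) * Real.exp (-(N * (FC p).re)) * ‖S‖ ≤
        N * Real.exp (-(N * (FC p).re)) * (N * T) := by gcongr
    _ = max C 1 * ((N : ℝ) ^ 2 * (Real.exp (-(N * (FC p).re)) *
        Real.exp (N * ((FC p).re - κ')))) := by rw [hT]; ring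
    _ = max C 1 * ((N : ℝ) ^ 2 * Real.exp (-(κ' * N))) := by
        rw [← Real.exp_add]
        congr 3
        ring
    _ ≤ max C 1 * (1 / (N : ℝ) ^ K) := by gcongr
    _ = _ := by ring

end Pool.Agent.N566.CX
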