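import Pool.Agent.N566.CX.Lpx
import Pool.Agent.N566.RX.Tok
import Pool.Agent.N568.CX.Cexe
import Pool.Agent.N608.CX.Siw
import Pool.Agent.N769.AX.Clasp

/-!
# The clasp with expansions: the type `(1, -2)`
-/

set_option autoImplicit false

namespace Pool.Agent.N566.CX

open Pool.Agent.N561 Pool.Agent.N561.AX

/-- the leaf of weight `-2`, with expansions -/
theorem lpx_clasp (hR : S_CCRE) (hG : S_GFX) (g : ℝ) (hg : 0 < g) :
    ∃ r₂ c₁ C₁ : ℝ, 0 < r₂ ∧ 0 < c₁ ∧ 0 < C₁ ∧ LPX (-2) (zc 0) g sg r₂ c₁ C₁ :=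
  lpx Pool.Agent.N568.CX.cexe (Pool.Agent.N720.VS.cnear f_cq) f_cfar f_cq
    Pool.Agent.N683.VS.cf hR (wcx hG Pool.Agent.N608.CX.siw f_cq) g hg

/-- the type `(1, -2)` -/
theorem tokx_clasp (hR : S_CCRE) (hG : S_GFX) {Rt : ℕ → ℤ → Prop} (hr : ¬ Rt 1 (-2)) :
    TOKX Rt 1 (-2) :=
  tokx_of_lpx (Pool.Agent.N769.AX.cgeox f_csg f_edge f_sgp Pool.Agent.N566.RX.x_gps)
    (lpx_clasp hR hG) hr

end Pool.Agent.N566.CX
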