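import Pool.Agent.N566.CX.Dx

/-!
# The clasp with expansions: inequalities near `ψ = 0`
-/

set_option autoImplicit false

namespace Pool.Agent.N566.CX

open Finset Filter Topology Metric
open Pool.Agent.W711.HT Pool.Agent.N561
open Pool.Agent.N839.VS (CR OR OR_sub_CR isOpen_OR isCompact_CR isOpen_DA)
open Pool.Agent.N720.VS (PQ mem_DA mem_strip Dat qc PQ0 slit0 QC_cont FC_cont dc_cont crit_ev
  slit_ev isOpen_PQ)
open Pool.Agent.W588.HT (cgap)
open scoped Real

/-- persistence of strict inequalities on compact sets, with a margin -/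
theorem side_k {E : Type} [TopologicalSpace E] {a' b' h : ℝ} (ha' : 0 < a') (hb' : b' < 1 / 2)
    (hd : dc 0 ∈ CR a' b' h) {K : Set E} (hK : IsCompact K) {f : ℂ × E → ℂ} {c : ℂ × E → ℝ}
    (hf : ∀ t ∈ K, ContinuousAt f (0, t)) (hc : ∀ t ∈ K, ContinuousAt c (0, t))
    (hfm : ∀ t ∈ K, f (0, t) ∈ CR a' b' h)
    (hlt : ∀ t ∈ K, (QC 0 (f (0, t))).re + c (0, t) < (FC 0).re) :
    ∃ κ : ℝ, 0 < κ ∧
      ∀ᶠ p in 𝓝 (0 : ℂ), ∀ t ∈ K, (QC p (f (p, t))).re + c (p, t) ≤ (FC p).re - κ := by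
  have key : ∀ t ∈ K, ContinuousAt (fun x : ℂ × E => (QC x.1 (f x)).re + c x) (0, t) := by
    intro t ht
    have c1 := QC_cont T0 ha' (PQ0 hb') (hfm t ht)
    have c2 : ContinuousAt (fun x : ℂ × E => QC x.1 (f x)) (0, t) :=
      ContinuousAt.comp' (g := fun x : ℂ × ℂ => QC x.1 x.2)
        (f := fun x : ℂ × E => (x.1, f x)) c1 (continuousAt_fst.prodMk (hf t ht))
    exact (Complex.continuous_re.continuousAt.comp c2).add (hc t ht)
  obtain ⟨κ, hκ, hg⟩ := cgap hK (φ := fun t : E => (QC 0 (f (0, t))).re + c (0, t))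
    (v := (FC 0).re) (fun t ht => by
      have e := ContinuousAt.comp' (g := fun x : ℂ × E => (QC x.1 (f x)).re + c x)
        (f := fun t : E => ((0 : ℂ), t)) (key t ht) (by fun_prop)
      exact e.continuousWithinAt) hlt
  refine ⟨κ / 2, by positivity, ?_⟩
  have h1 : ∀ᶠ p in 𝓝 (0 : ℂ), ∀ t ∈ K,
      (QC p (f (p, t))).re + c (p, t) < (FC p).re - κ / 2 := by
    refine hK.eventually_forall_of_forall_eventually fun t ht => ?_
    have c3 : ContinuousAt (fun x : ℂ × E => FC x.1) (0, t) :=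
      ContinuousAt.comp' (g := fun p : ℂ => FC p)
        (f := fun x : ℂ × E => x.1) (FC_cont T0 ha' (PQ0 hb') slit0 hd) continuousAt_fst
    have c5 : ContinuousAt (fun x : ℂ × E => (FC x.1).re - κ / 2) (0, t) :=
      (Complex.continuous_re.continuousAt.comp c3).sub continuousAt_const
    refine (key t ht).eventually_lt c5 ?_
    have := hg t ht
    simp only at this ⊢
    linarith
  filter_upwards [h1] with p hp t ht
  exact (hp t ht).le

/-- the inequalities for the window `a, b`, uniformly near `ψ = 0` -/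
structure Ineq (a b δ a' b' h κ : ℝ) (p : ℂ) : Prop where
  pq : p ∈ PQ b'
  im : (dc p).im < 0
  im2 : |(dc p).im| < h
  re1 : a + δ < (dc p).re
  re2 : (dc p).re < b - δ
  crit : HasDerivAt (QC p) 0 (dc p)
  slit : 1 + 2 * Complex.I * Complex.cos (p / 2) ∈ Complex.slitPlane
  side : ∀ x : ℝ, (a - δ ≤ x ∧ x ≤ a + δ ∨ b - δ ≤ x ∧ x ≤ b + δ) → ∀ y : ℝ, |y| ≤ -(dc p).im →
    (QC p (x + y * Complex.I)).re - 2 * π * max y 0 ≤ (FC p).re - κ
  top : ∀ x : ℝ, a - δ ≤ x → x ≤ b + δ →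
    (QC p (x - (dc p).im * Complex.I)).re + 2 * π * (dc p).im ≤ (FC p).re - κ

theorem ineq (hQ : S_CQ) : ∃ a₀ b₀ : ℝ, 0 < a₀ ∧ b₀ < 1 / 2 ∧ a₀ < b₀ ∧
    ∀ a b δ : ℝ, 0 < δ → 0 < a - δ → a + δ ≤ a₀ → b₀ ≤ b - δ → b + δ < 1 / 2 →
    ∃ a' b' h : ℝ, 0 < a' ∧ a' < a - δ ∧ b + δ < b' ∧ b' < 1 / 2 ∧ 0 < h ∧
    (∃ κ : ℝ, 0 < κ ∧ ∀ᶠ p in 𝓝 (0 : ℂ), Ineq a b δ a' b' h κ p) ∧
    ∀ η : ℝ, 0 < η → ∃ κ : ℝ, 0 < κ ∧ ∀ᶠ p in 𝓝 (0 : ℂ), ∀ x : ℝ, a - δ ≤ x → x ≤ b + δ →
      η ≤ |x - (dc p).re| → (QC p (x + (dc p).im * Complex.I)).re ≤ (FC p).re - κ := by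
  have hπ := Real.pi_pos
  have hcrit := crit_ev hQ
  obtain ⟨f1, f2, f3, f4, f5, f6, f7, a₀, b₀, s1, s2, s3, s4, s5⟩ := hQ
  refine ⟨a₀, b₀, s1, s4, by linarith, fun a b δ hδ haδ haa₀ hbb₀ hb => ?_⟩
  set z₀ : ℂ := dc 0 with hz₀
  have hza : a + δ < z₀.re := by linarith
  have hzb : z₀.re < b - δ := by linarith
  obtain ⟨h, hh1⟩ : ∃ h : ℝ, |z₀.im| < h := ⟨|z₀.im| + 1, by linarith⟩
  have hh : 0 < h := (abs_nonneg _).trans_lt hh1
  obtain ⟨a', ha'0, ha'1⟩ : ∃ a' : ℝ, 0 < a' ∧ a' < a - δ := ⟨(a - δ) / 2, by linarith, by linarith⟩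
  obtain ⟨b', hb'1, hb'2⟩ : ∃ b' : ℝ, b + δ < b' ∧ b' < 1 / 2 :=
    ⟨(b + δ + 1 / 2) / 2, by linarith, by linarith⟩
  refine ⟨a', b', h, ha'0, ha'1, hb'1, hb'2, hh, ?_, ?_⟩
  all_goals
    have hp₀ := PQ0 hb'2
    have cd : ContinuousAt dc 0 := dc_cont slit0
    have hz₀m : z₀ ∈ OR a' b' h := ⟨by linarith, by linarith, hh1⟩
    have hz₀C := OR_sub_CR _ _ _ hz₀m
    have cre : ContinuousAt (fun p : ℂ => (dc p).re) 0 := Complex.continuous_re.continuousAt.comp cd
    have cim : ContinuousAt (fun p : ℂ => (dc p).im) 0 := Complex.continuous_im.continuousAt.comp cd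
    have habs : |z₀.im| = -z₀.im := abs_of_neg f1
    have hmem : ∀ x : ℝ, a - δ ≤ x → x ≤ b + δ → ∀ y : ℝ, |y| ≤ |z₀.im| →
        (x : ℂ) + y * Complex.I ∈ CR a' b' h := by
      intro x hx1 hx2 y hy
      refine ⟨?_, ?_, ?_⟩
      · simp; linarith
      · simp; linarith
      · simp; linarith
  · -- the sides and the top
    have cim' : ∀ t : ℝ × ℝ, ContinuousAt (fun x : ℂ × ℝ × ℝ => (dc x.1).im) (0, t) := fun t =>
      ContinuousAt.comp' (g := fun p : ℂ => (dc p).im)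
        (f := fun x : ℂ × ℝ × ℝ => x.1) cim continuousAt_fst
    obtain ⟨κ₁, hκ₁, h1⟩ := side_k ha'0 hb'2 hz₀C
      (K := (Set.Icc (a - δ) (a + δ) ∪ Set.Icc (b - δ) (b + δ)) ×ˢ Set.Icc (-1 : ℝ) 1)
      ((isCompact_Icc.union isCompact_Icc).prod isCompact_Icc)
      (f := fun q : ℂ × ℝ × ℝ => (q.2.1 : ℂ) + ((q.2.2 * (-(dc q.1).im) : ℝ) : ℂ) * Complex.I)
      (c := fun q : ℂ × ℝ × ℝ => -(2 * π * max (q.2.2 * (-(dc q.1).im)) 0)) (by
        intro t _
        have e1 : ContinuousAt (fun x : ℂ × ℝ × ℝ => x.2.2 * (-(dc x.1).im)) (0, t) :=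
          (by fun_prop : ContinuousAt (fun x : ℂ × ℝ × ℝ => x.2.2) (0, t)).mul (cim' t).neg
        exact (by fun_prop : ContinuousAt (fun x : ℂ × ℝ × ℝ => (x.2.1 : ℂ)) (0, t)).add
          ((Complex.continuous_ofReal.continuousAt.comp e1).mul continuousAt_const)) (by
        intro t _
        have e1 : ContinuousAt (fun x : ℂ × ℝ × ℝ => x.2.2 * (-(dc x.1).im)) (0, t) :=
          (by fun_prop : ContinuousAt (fun x : ℂ × ℝ × ℝ => x.2.2) (0, t)).mul (cim' t).neg
        exact (continuousAt_const.mul (e1.max continuousAt_const)).neg) (by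
        rintro ⟨x, t⟩ ⟨hx, ht⟩
        have ht' : |t| ≤ 1 := abs_le.2 ⟨ht.1, ht.2⟩
        have hx' : a - δ ≤ x ∧ x ≤ b + δ := by
          rcases hx with hx | hx
          · exact ⟨hx.1, by linarith [hx.2]⟩
          · exact ⟨by linarith [hx.1], hx.2⟩
        refine hmem x hx'.1 hx'.2 _ ?_
        show |t * (-z₀.im)| ≤ |z₀.im|
        rw [abs_mul, abs_neg]
        exact mul_le_of_le_one_left (abs_nonneg _) ht') (by
        rintro ⟨x, t⟩ ⟨hx, ht⟩
        show (QC 0 ((x : ℂ) + ((t * (-z₀.im) : ℝ) : ℂ) * Complex.I)).re +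
          -(2 * π * max (t * (-z₀.im)) 0) < (FC 0).re
        have hy1 : z₀.im ≤ t * (-z₀.im) := by nlinarith [ht.1]
        have hy2 : t * (-z₀.im) ≤ -z₀.im := by nlinarith [ht.2]
        generalize t * (-z₀.im) = y at hy1 hy2
        rcases le_total y 0 with hy | hy
        · rw [max_eq_right hy, mul_zero, neg_zero, add_zero]
          rcases hx with hx | hx
          · exact ((s5 x b (by linarith [hx.1]) (by linarith [hx.2]) (by linarith)
              (by linarith)).1 y hy1 hy).1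
          · exact ((s5 a x (by linarith) (by linarith) (by linarith [hx.1])
              (by linarith [hx.2])).1 y hy1 hy).2
        · rw [max_eq_left hy]
          rcases hx with hx | hx
          · have := ((s5 x b (by linarith [hx.1]) (by linarith [hx.2]) (by linarith)
              (by linarith)).2.1 y hy hy2).1
            linarith
          · have := ((s5 a x (by linarith) (by linarith) (by linarith [hx.1])
              (by linarith [hx.2])).2.1 y hy hy2).2
            linarith)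
    have cim1 : ∀ t : ℝ, ContinuousAt (fun x : ℂ × ℝ => (dc x.1).im) (0, t) := fun t =>
      ContinuousAt.comp' (g := fun p : ℂ => (dc p).im)
        (f := fun x : ℂ × ℝ => x.1) cim continuousAt_fst
    obtain ⟨κ₂, hκ₂, h2⟩ := side_k ha'0 hb'2 hz₀C (K := Set.Icc (a - δ) (b + δ))
      isCompact_Icc (f := fun q : ℂ × ℝ => (q.2 : ℂ) - ((dc q.1).im : ℂ) * Complex.I)
      (c := fun q : ℂ × ℝ => 2 * π * (dc q.1).im) (by
        intro t _
        exact (by fun_prop : ContinuousAt (fun x : ℂ × ℝ => (x.2 : ℂ)) (0, t)).sub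
          ((Complex.continuous_ofReal.continuousAt.comp (cim1 t)).mul continuousAt_const)) (by
        intro t _
        exact continuousAt_const.mul (cim1 t)) (by
        intro t ht
        have := hmem t ht.1 ht.2 (-z₀.im) (by rw [abs_neg])
        simpa [sub_eq_add_neg] using this) (by
        intro t ht
        exact (s5 a (b + δ) (by linarith) (by linarith) (by linarith) (by linarith)).2.2 t
          (by linarith [ht.1]) ht.2)
    refine ⟨min κ₁ κ₂, lt_min hκ₁ hκ₂, ?_⟩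
    filter_upwards [h1, h2, (isOpen_PQ _).mem_nhds hp₀, hcrit, slit_ev,
      cre.eventually_const_lt hza, cre.eventually_lt_const hzb, cim.eventually_lt_const f1,
      cim.abs.eventually_lt_const hh1] with p g1 g2 g3 g4 g5 g6 g7 g8 g9
    refine ⟨g3, g8, g9, g6, g7, g4, g5, ?_, ?_⟩
    · intro x hx y hy
      have hx' : x ∈ Set.Icc (a - δ) (a + δ) ∪ Set.Icc (b - δ) (b + δ) := by
        rcases hx with hx | hx
        · exact Or.inl hx
        · exact Or.inr hx
      have hn : (dc p).im ≠ 0 := g8.ne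
      have ht : y / (-(dc p).im) ∈ Set.Icc (-1 : ℝ) 1 := by
        have h0 : 0 < -(dc p).im := by linarith
        rw [abs_le] at hy
        constructor
        · rw [le_div_iff₀ h0]; linarith
        · rw [div_le_iff₀ h0]; linarith
      have h3 := g1 (x, y / (-(dc p).im)) ⟨hx', ht⟩
      have e1 : y / (-(dc p).im) * (-(dc p).im) = y :=
        div_mul_cancel₀ _ (neg_ne_zero.2 hn)
      simp only [e1] at h3
      have := min_le_left κ₁ κ₂
      linarith
    · intro x hx1 hx2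
      have h3 := g2 x ⟨hx1, hx2⟩
      have := min_le_right κ₁ κ₂
      linarith
  · intro η hη
    have cim1 : ∀ t : ℝ, ContinuousAt (fun x : ℂ × ℝ => (dc x.1).im) (0, t) := fun t =>
      ContinuousAt.comp' (g := fun p : ℂ => (dc p).im)
        (f := fun x : ℂ × ℝ => x.1) cim continuousAt_fst
    obtain ⟨κ, hκ, h1⟩ := side_k ha'0 hb'2 hz₀C
      (K := Set.Icc (a - δ) (b + δ) ∩ {x : ℝ | η / 2 ≤ |x - z₀.re|})
      (isCompact_Icc.inter_right (isClosed_le (by fun_prop) (by fun_prop)))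
      (f := fun q : ℂ × ℝ => (q.2 : ℂ) + ((dc q.1).im : ℂ) * Complex.I)
      (c := fun _ => 0) (by
        intro t _
        exact (by fun_prop : ContinuousAt (fun x : ℂ × ℝ => (x.2 : ℂ)) (0, t)).add
          ((Complex.continuous_ofReal.continuousAt.comp (cim1 t)).mul continuousAt_const))
      (fun t _ => continuousAt_const) (by
        intro t ht
        exact hmem t ht.1.1 ht.1.2 z₀.im le_rfl) (by
        intro t ht
        rw [add_zero]
        refine f7 t (by linarith [ht.1.1]) (by linarith [ht.1.2]) ?_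
        rintro rfl
        have := ht.2
        simp only [Set.mem_ofPred_eq, sub_self, abs_zero] at this
        linarith)
    refine ⟨κ, hκ, ?_⟩
    have h2 : ∀ᶠ p in 𝓝 (0 : ℂ), |(dc p).re - z₀.re| < η / 2 := by
      have := (cre.sub_const z₀.re).abs
      refine this.eventually_lt_const ?_
      simp only [← hz₀, sub_self, abs_zero]
      positivity
    filter_upwards [h1, h2] with p g1 g2 x hx1 hx2 hx3
    have h3 : η / 2 ≤ |x - z₀.re| := by
      have := abs_sub_abs_le_abs_sub (x - (dc p).re) (z₀.re - (dc p).re)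
      rw [sub_sub_sub_cancel_right, abs_sub_comm z₀.re] at this
      linarith
    have h4 := g1 x ⟨⟨hx1, hx2⟩, h3⟩
    simp only [add_zero] at h4
    exact h4

end Pool.Agent.N566.CX
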